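import Pool.Agent.N916.AM.Stm

/-!
# The hypothesis `LAH` for a multiple of the modulus
-/

set_option autoImplicit false

open scoped Classical

namespace Pool.Agent.N855.TG

open Finset
open Pool.Agent.N916.AM (LAH LAV Nd Rich Bs)
open Pool.Agent.Y703.CQ (nr)
open Pool.Agent.N973.ND (uu)

/-- a unit modulo a divisor lifts to a unit -/
theorem exists_lift {M M' a : ℕ} (hMM : M ∣ M') (hM' : 0 < M') (ha : a < M) (hc : a.Coprime M) :
    ∃ a' < M', a'.Coprime M' ∧ a' % M = a := by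
  have hM : 0 < M := Nat.pos_of_dvd_of_pos hMM hM'
  haveI : NeZero M' := ⟨hM'.ne'⟩
  haveI : NeZero M := ⟨hM.ne'⟩
  obtain ⟨u, hu⟩ := ZMod.unitsMap_surjective hMM (ZMod.unitOfCoprime a hc)
  refine ⟨(u : ZMod M').val, ZMod.val_lt _, ZMod.val_coe_unit_coprime u, ?_⟩
  have h1 : ((ZMod.unitsMap hMM u : (ZMod M)ˣ) : ZMod M) = (a : ZMod M) := by
    rw [hu, ZMod.coe_unitOfCoprime]
  rw [ZMod.unitsMap_val] at h1
  have h2 : (((u : ZMod M').val : ℕ) : ZMod M) = (a : ZMod M) := by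
    rw [← h1, ZMod.cast_eq_val]
  have h3 := (ZMod.natCast_eq_natCast_iff' _ _ _).1 h2
  rw [h3, Nat.mod_eq_of_lt ha]

theorem lah_lift {M M' : ℕ} {K K' : Finset ℕ} {G : Finset ℕ → Prop} {c : ℝ} (hMM : M ∣ M')
    (hM' : 0 < M') (hK : ∀ a ∈ K', a % M ∈ K) (h : LAH M K G c) : LAH M' K' G c := by
  intro ε hε
  obtain ⟨V, hV⟩ := h ε hε
  refine ⟨V, ?_⟩
  intro ι _ _ S₀ p hS₀ hp hpi hpK hN hR
  have hsub : M.primeFactors ⊆ M'.primeFactors := Nat.primeFactors_mono hMM hM'.ne'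
  have hB : Bs M S₀ ⊆ Bs M' S₀ := union_subset_union_right hsub
  obtain ⟨Q, h1, h2⟩ := hV ι S₀ p hS₀
    (fun i => ⟨(hp i).1, (hp i).2.1, Nat.Coprime.coprime_dvd_right hMM (hp i).2.2⟩) hpi
    (by
      have := hK _ hpK
      rwa [Nat.mod_mod_of_dvd _ hMM] at this)
    (by
      intro w s hws
      obtain ⟨q, hq, hq2⟩ := hN (fun v => if v ∈ Bs M S₀ then w v else 0) s (by
        rcases hws with ⟨v, hv, hv2⟩ | h
        · exact Or.inl ⟨v, hB hv, by rw [if_pos hv]; exact hv2⟩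
        · exact Or.inr h)
      refine ⟨q, hq, ?_⟩
      have e : ∑ v ∈ Bs M' S₀, (if v ∈ Bs M S₀ then w v else 0) * nr q v =
          ∑ v ∈ Bs M S₀, w v * nr q v := by
        rw [← sum_subset hB (fun v _ hv => by rw [if_neg hv, zero_mul])]
        exact sum_congr rfl fun v hv => by rw [if_pos hv]
      rwa [e] at hq2)
    (by
      intro a ha hac
      obtain ⟨a', h1, h2, h3⟩ := exists_lift hMM hM' ha hac
      refine (hR a' h1 h2).trans (card_le_card ?_)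
      intro q hq
      rw [mem_filter] at hq ⊢
      refine ⟨hq.1, ?_⟩
      rw [← Nat.mod_mod_of_dvd q hMM, hq.2, h3])
  refine ⟨Q, fun q hqi hq => h1 q hqi fun i => ?_, h2⟩
  obtain ⟨k1, k2, k3, k4⟩ := hq i
  refine ⟨k1, k2, ?_, k4⟩
  rw [← Nat.mod_mod_of_dvd (q i) hMM, k3, Nat.mod_mod_of_dvd _ hMM]

end Pool.Agent.N855.TG
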