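import Pool.Agent.N919.BS.Fin
import Pool.Agent.N855.TG.Lift

/-!
# Half of the squarefree integers with a given greatest common divisor with `e` have root number `1`
-/

set_option autoImplicit false

open scoped Classical

namespace Pool.Agent.N855.TG

open Finset Filter
open Pool.Agent.N919.BS (UU eqd NS)

/-- a function on the residue classes which changes the sign under the multiplication by a unit -/
theorem flip_sum {m : ℕ} (hm : 0 < m) {u : ℕ} (hu : u.Coprime m) {φ : ℕ → ℤ} {B : ℕ}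
    (h1 : ∀ n, |φ n| ≤ B) (hper : ∀ n, φ (n % m) = φ n) (hf : ∀ n, φ (u * n) = - φ n) (Y : ℕ) :
    |((∑ n ∈ (Icc 1 Y).filter Squarefree, φ n : ℤ) : ℝ)| ≤ B * m * Real.sqrt Y := by
  have e1 : ∑ n ∈ (Icc 1 Y).filter Squarefree, φ n = ∑ a ∈ range m, φ a * ((UU m a Y).card : ℤ) := by
    rw [← sum_fiberwise_of_maps_to (s := (Icc 1 Y).filter Squarefree) (t := range m)
      (g := fun n => n % m) (fun n _ => mem_range.2 (Nat.mod_lt _ hm))]
    refine sum_congr rfl fun a _ => ?_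
    have e2 : ((Icc 1 Y).filter Squarefree).filter (fun n => n % m = a) = UU m a Y := by
      unfold Pool.Agent.N919.BS.UU
      rw [filter_filter]
    rw [e2, mul_comm, ← nsmul_eq_mul]
    refine sum_eq_card_nsmul fun n hn => ?_
    unfold Pool.Agent.N919.BS.UU at hn
    rw [← (mem_filter.1 hn).2.2, hper]
  have hmaps : ∀ a ∈ range m, u * a % m ∈ range m := fun a _ => mem_range.2 (Nat.mod_lt _ hm)
  have hinj : Set.InjOn (fun a => u * a % m) (range m : Set ℕ) := by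
    intro a ha b hb hab
    rw [mem_coe, mem_range] at ha hb
    have h2 : u * a ≡ u * b [MOD m] := hab
    have h3 : a ≡ b [MOD m] := Nat.ModEq.cancel_left_of_coprime (by rw [Nat.gcd_comm]; exact hu) h2
    have h4 : a % m = b % m := h3
    rwa [Nat.mod_eq_of_lt ha, Nat.mod_eq_of_lt hb] at h4
  have hsurj : Set.SurjOn (fun a => u * a % m) (range m : Set ℕ) (range m : Set ℕ) :=
    Finset.surjOn_of_injOn_of_card_le _ (fun a ha => mem_coe.2 (hmaps a (mem_coe.1 ha))) hinj le_rfl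
  have e2 : ∑ a ∈ range m, φ a * ((UU m a Y).card : ℤ) =
      ∑ a ∈ range m, φ (u * a % m) * ((UU m (u * a % m) Y).card : ℤ) := by
    symm
    exact sum_nbij (fun a => u * a % m) hmaps hinj hsurj fun a _ => rfl
  have e3 : (2 : ℝ) * ((∑ a ∈ range m, φ a * ((UU m a Y).card : ℤ) : ℤ) : ℝ) =
      ∑ a ∈ range m, (φ a : ℝ) * (((UU m a Y).card : ℝ) - ((UU m (u * a % m) Y).card : ℝ)) := by
    have e4 : ∑ a ∈ range m, φ (u * a % m) * ((UU m (u * a % m) Y).card : ℤ) =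
        ∑ a ∈ range m, -(φ a * ((UU m (u * a % m) Y).card : ℤ)) := by
      refine sum_congr rfl fun a _ => ?_
      rw [hper, hf, neg_mul]
    rw [two_mul]
    nth_rewrite 2 [e2]
    rw [e4, ← Int.cast_add, ← sum_add_distrib]
    push_cast
    refine sum_congr rfl fun a _ => ?_
    ring
  rw [e1]
  have h5 : |∑ a ∈ range m, (φ a : ℝ) * (((UU m a Y).card : ℝ) - ((UU m (u * a % m) Y).card : ℝ))| ≤
      B * m * Real.sqrt Y := by
    refine (abs_sum_le_sum_abs _ _).trans ?_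
    refine (sum_le_sum (g := fun _ => (B : ℝ) * Real.sqrt Y) fun a ha => ?_).trans ?_
    · rw [abs_mul]
      have h3 : |(φ a : ℝ)| ≤ B := by exact_mod_cast h1 a
      refine mul_le_mul h3 ?_ (abs_nonneg _) (Nat.cast_nonneg _)
      refine eqd m a (u * a % m) Y hm (mem_range.1 ha) (Nat.mod_lt _ hm) ?_
      have e5 : (u * a % m).gcd m = (u * a).gcd m := by
        rw [Nat.gcd_comm (u * a) m, Nat.gcd_rec m (u * a)]
      rw [e5, Nat.Coprime.gcd_mul_left_cancel a hu]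
    · rw [sum_const, card_range, nsmul_eq_mul]
      refine le_of_eq ?_
      ring
  rw [← e3, abs_mul] at h5
  have h6 : |(2 : ℝ)| = 2 := abs_of_pos (by norm_num)
  rw [h6] at h5
  have h7 := abs_nonneg (((∑ a ∈ range m, φ a * ((UU m a Y).card : ℤ) : ℤ) : ℝ))
  linarith

/-- the finite part of a root number with two ramified primes -/
structure Rn (q₁ q₂ : ℕ) (v : ℤ → ℤ) : Prop where
  pos₁ : 0 < q₁
  pos₂ : 0 < q₂
  val : ∀ d, v d = 1 ∨ v d = -1
  per : ∀ d d' : ℤ, ((q₁ * q₂ : ℕ) : ℤ) ∣ d - d' → v d = v d'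
  f₁ : ∃ u : ℕ, u < q₁ * q₂ ∧ u.Coprime (q₁ * q₂) ∧ ∀ d : ℤ, ¬ (q₁ : ℤ) ∣ d →
    ¬ (q₁ : ℤ) ∣ u * d ∧ v (u * d) = - v d
  f₂ : ∃ u : ℕ, u < q₁ * q₂ ∧ u.Coprime (q₁ * q₂) ∧ ∀ d : ℤ, (q₁ : ℤ) ∣ d → ¬ (q₂ : ℤ) ∣ d →
    ¬ (q₂ : ℤ) ∣ u * d ∧ v (u * d) = - v d
  f₃ : ∀ d : ℤ, (q₁ : ℤ) ∣ d → (q₂ : ℤ) ∣ d → v (-d) = v d

/-- the root number -/
def wt (v : ℤ → ℤ) (d : ℤ) : ℤ := (if d < 0 then -1 else 1) * v d

/-- positive and negative squarefree integers -/
theorem NS_split (P : ℤ → Prop) (Y : ℕ) : NS P Y =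
    ((Icc 1 Y).filter fun n : ℕ => Squarefree n ∧ P n).card +
      ((Icc 1 Y).filter fun n : ℕ => Squarefree n ∧ P (-(n : ℤ))).card := by
  have h1 : (Icc (-(Y : ℤ)) Y).filter (fun d => Squarefree d ∧ P d) =
      (((Icc 1 Y).filter fun n : ℕ => Squarefree n ∧ P n).image fun n : ℕ => (n : ℤ)) ∪
        (((Icc 1 Y).filter fun n : ℕ => Squarefree n ∧ P (-(n : ℤ))).image
          fun n : ℕ => -(n : ℤ)) := by
    ext d
    rw [mem_union, mem_image, mem_image, mem_filter, mem_Icc]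
    constructor
    · rintro ⟨h1, h2, h3⟩
      have h4 := Int.squarefree_natAbs.2 h2
      rcases lt_or_gt_of_ne h2.ne_zero with h | h
      · right
        refine ⟨d.natAbs, ?_, by omega⟩
        rw [mem_filter, mem_Icc]
        refine ⟨by omega, h4, ?_⟩
        rwa [show -((d.natAbs : ℕ) : ℤ) = d by omega]
      · left
        refine ⟨d.natAbs, ?_, by omega⟩
        rw [mem_filter, mem_Icc]
        refine ⟨by omega, h4, ?_⟩
        rwa [show ((d.natAbs : ℕ) : ℤ) = d by omega]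
    · rintro (⟨n, hn, rfl⟩ | ⟨n, hn, rfl⟩)
      · rw [mem_filter, mem_Icc] at hn
        exact ⟨by omega, Int.squarefree_natCast.2 hn.2.1, hn.2.2⟩
      · rw [mem_filter, mem_Icc] at hn
        exact ⟨by omega, (Pool.Agent.N919.BS.sq_neg _).2 (Int.squarefree_natCast.2 hn.2.1), hn.2.2⟩
  unfold Pool.Agent.N919.BS.NS
  rw [h1, card_union_of_disjoint, card_image_of_injective, card_image_of_injective]
  · intro a b h
    simpa using h
  · intro a b h
    simpa using h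
  · rw [Finset.disjoint_left]
    intro d h1 h2
    rw [mem_image] at h1 h2
    obtain ⟨n, hn, rfl⟩ := h1
    obtain ⟨k, hk, h⟩ := h2
    rw [mem_filter, mem_Icc] at hn
    omega

section

variable {q₁ q₂ : ℕ} {v : ℤ → ℤ} (H : Rn q₁ q₂ v) {E : ℕ} (hE : 0 < E) (r : ℕ)

/-- the sum over both signs -/
noncomputable def psi (v : ℤ → ℤ) (E r : ℕ) (n : ℕ) : ℤ :=
  if Nat.gcd n E = r then v n - v (-(n : ℤ)) else 0

include H in
theorem psi_le (n : ℕ) : |psi v E r n| ≤ 2 := by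
  unfold psi
  have h1 := H.val n
  have h2 := H.val (-(n : ℤ))
  split_ifs
  · rcases h1 with h1 | h1 <;> rcases h2 with h2 | h2 <;> rw [h1, h2] <;> norm_num
  · norm_num

include H in
theorem psi_per {m : ℕ} (hm : q₁ * q₂ * E ∣ m) (n : ℕ) : psi v E r (n % m) = psi v E r n := by
  have h1 : Nat.gcd (n % m) E = Nat.gcd n E := by
    have h2 : n % m ≡ n [MOD E] := (Nat.mod_modEq n m).of_dvd ((Dvd.intro_left _ rfl).trans hm)
    exact h2.gcd_eq
  have h3 : ((q₁ * q₂ : ℕ) : ℤ) ∣ ((n % m : ℕ) : ℤ) - n := by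
    have h4 : n ≡ n % m [MOD q₁ * q₂] :=
      ((Nat.mod_modEq n m).of_dvd ((Dvd.intro _ rfl).trans hm)).symm
    exact (Nat.modEq_iff_dvd).1 h4
  unfold psi
  rw [h1, H.per _ _ h3, H.per (-((n % m : ℕ) : ℤ)) (-(n : ℤ)) (by
    have : -((n % m : ℕ) : ℤ) - -(n : ℤ) = -(((n % m : ℕ) : ℤ) - n) := by ring
    rw [this]
    exact (dvd_neg).2 h3)]

theorem dvd_mod {q m n : ℕ} (h : q ∣ m) : (q : ℤ) ∣ ((n % m : ℕ) : ℤ) ↔ (q : ℤ) ∣ (n : ℤ) := by
  rw [Int.natCast_dvd_natCast, Int.natCast_dvd_natCast]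
  exact Nat.dvd_mod_iff h

include H hE

/-- **half** -/
theorem half_gcd (Y : ℕ) : |2 * (NS (fun f : ℤ => Nat.gcd f.natAbs E = r ∧ wt v f = 1) Y : ℝ) -
    (NS (fun f : ℤ => Nat.gcd f.natAbs E = r) Y : ℝ)| ≤
      4 * (q₁ * q₂ * E : ℕ) * Real.sqrt Y := by
  set m : ℕ := q₁ * q₂ * E with hm
  have hqq : 0 < q₁ * q₂ := Nat.mul_pos H.pos₁ H.pos₂
  have hm0 : 0 < m := Nat.mul_pos hqq hE
  have hqm : q₁ * q₂ ∣ m := Dvd.intro _ rfl
  have h1m : q₁ ∣ m := (Dvd.intro _ rfl : q₁ ∣ q₁ * q₂).trans hqm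
  have h2m : q₂ ∣ m := (Dvd.intro_left _ rfl : q₂ ∣ q₁ * q₂).trans hqm
  have hEm : E ∣ m := Dvd.intro_left _ rfl
  -- the sum
  have e0 : (2 * (NS (fun f : ℤ => Nat.gcd f.natAbs E = r ∧ wt v f = 1) Y : ℤ) -
      (NS (fun f : ℤ => Nat.gcd f.natAbs E = r) Y : ℤ)) =
      ∑ n ∈ (Icc 1 Y).filter Squarefree, psi v E r n := by
    rw [NS_split, NS_split]
    have e1 : ∀ P : ℕ → Prop, (((Icc 1 Y).filter fun n : ℕ => Squarefree n ∧ P n).card : ℤ) =
        ∑ n ∈ (Icc 1 Y).filter Squarefree, if P n then 1 else 0 := by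
      intro P
      rw [← sum_filter, filter_filter, sum_const, nsmul_eq_mul, mul_one]
    push_cast
    rw [e1, e1, e1, e1, ← sum_add_distrib, ← sum_add_distrib, mul_sum, ← sum_sub_distrib]
    refine sum_congr rfl fun n hn => ?_
    rw [mem_filter, mem_Icc] at hn
    have hn0 : 0 < n := hn.1.1
    have w1 : wt v (n : ℤ) = v n := by
      unfold wt
      rw [if_neg (by omega), one_mul]
    have w2 : wt v (-(n : ℤ)) = -v (-(n : ℤ)) := by
      unfold wt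
      rw [if_pos (by omega), neg_one_mul]
    unfold psi
    rw [Int.natAbs_neg, Int.natAbs_natCast, w1, w2]
    by_cases h : Nat.gcd n E = r
    · rcases H.val n with h1 | h1 <;> rcases H.val (-(n : ℤ)) with h2 | h2 <;>
        simp [h, h1, h2]
    · simp [h]
  -- the three parts
  set φ₁ : ℕ → ℤ := fun n => if (q₁ : ℤ) ∣ n then 0 else psi v E r n with hφ₁
  set φ₂ : ℕ → ℤ := fun n => if (q₁ : ℤ) ∣ n ∧ ¬ (q₂ : ℤ) ∣ n then psi v E r n else 0 with hφ₂
  have e1 : ∀ n, psi v E r n = φ₁ n + φ₂ n := by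
    intro n
    by_cases h1 : (q₁ : ℤ) ∣ n
    · by_cases h2 : (q₂ : ℤ) ∣ n
      · have e2 : psi v E r n = 0 := by
          unfold psi
          rw [H.f₃ n h1 h2, sub_self, ite_self]
        have e3 : φ₁ n = 0 := if_pos h1
        have e4 : φ₂ n = 0 := if_neg (fun h => h.2 h2)
        rw [e2, e3, e4, add_zero]
      · have e3 : φ₁ n = 0 := if_pos h1
        have e4 : φ₂ n = psi v E r n := if_pos ⟨h1, h2⟩
        rw [e3, e4, zero_add]
    · have e3 : φ₁ n = psi v E r n := if_neg h1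
      have e4 : φ₂ n = 0 := if_neg (fun h => h1 h.1)
      rw [e3, e4, add_zero]
  -- the units
  have key : ∀ u : ℕ, u < q₁ * q₂ → u.Coprime (q₁ * q₂) → ∃ u' : ℕ, u'.Coprime m ∧
      ∀ d : ℤ, ((q₁ * q₂ : ℕ) : ℤ) ∣ u' * d - u * d := by
    intro u hu1 hu2
    obtain ⟨u', -, h2, h3⟩ := exists_lift hqm hm0 hu1 hu2
    refine ⟨u', h2, fun d => ?_⟩
    rw [← sub_mul]
    refine Dvd.dvd.mul_right ?_ d
    have h4 : u ≡ u' [MOD q₁ * q₂] := by
      show u % (q₁ * q₂) = u' % (q₁ * q₂)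
      rw [h3, Nat.mod_eq_of_lt hu1]
    exact Nat.modEq_iff_dvd.1 h4
  have hgu : ∀ {u' : ℕ}, u'.Coprime m → ∀ n, Nat.gcd (u' * n) E = Nat.gcd n E := fun hu n =>
    Nat.Coprime.gcd_mul_left_cancel n (Nat.Coprime.coprime_dvd_right hEm hu)
  have hdv : ∀ {q : ℕ} {x y : ℤ}, q ∣ q₁ * q₂ → ((q₁ * q₂ : ℕ) : ℤ) ∣ x - y →
      ((q : ℤ) ∣ x ↔ (q : ℤ) ∣ y) := by
    intro q x y hq hxy
    have h1 : (q : ℤ) ∣ x - y := (Int.natCast_dvd_natCast.2 hq).trans hxy
    exact (dvd_iff_dvd_of_dvd_sub h1)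
  have hcop : ∀ {q u : ℕ} {d : ℤ}, u.Coprime q → (q : ℤ) ∣ u * d → (q : ℤ) ∣ d := by
    intro q u d hu h
    exact IsCoprime.dvd_of_dvd_mul_left (Nat.isCoprime_iff_coprime.2 hu.symm) h
  have s1 : |((∑ n ∈ (Icc 1 Y).filter Squarefree, φ₁ n : ℤ) : ℝ)| ≤ (2 : ℕ) * m * Real.sqrt Y := by
    obtain ⟨u, hu1, hu2, hu3⟩ := H.f₁
    obtain ⟨u', k1, k2⟩ := key u hu1 hu2
    refine flip_sum hm0 k1 (B := 2) (fun n => ?_) (fun n => ?_) (fun n => ?_) Y
    · rw [hφ₁]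
      show |ite _ _ _| ≤ _
      split_ifs
      · norm_num
      · exact_mod_cast psi_le H r n
    · show ite _ _ _ = ite _ _ _
      rw [psi_per H r (dvd_refl _)]
      simp only [dvd_mod h1m]
    · show ite _ _ _ = - ite _ _ _
      have g1 : (q₁ : ℤ) ∣ ((u' * n : ℕ) : ℤ) ↔ (q₁ : ℤ) ∣ (n : ℤ) := by
        push_cast
        exact ⟨fun h => hcop (Nat.Coprime.coprime_dvd_right h1m k1) h, fun h => h.mul_left _⟩
      by_cases h : (q₁ : ℤ) ∣ (n : ℤ)
      · rw [if_pos (g1.2 h), if_pos h, neg_zero]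
      · rw [if_neg (fun h' => h (g1.1 h')), if_neg h]
        unfold psi
        rw [hgu k1]
        split_ifs
        · have g2 : v ((u' * n : ℕ) : ℤ) = - v n := by
            push_cast
            rw [H.per _ _ (k2 n), (hu3 n h).2]
          have g3 : v (-((u' * n : ℕ) : ℤ)) = - v (-(n : ℤ)) := by
            have e : -((u' * n : ℕ) : ℤ) = u' * (-(n : ℤ)) := by push_cast; ring
            rw [e, H.per _ _ (k2 _), (hu3 (-(n : ℤ)) (fun h' => h ((dvd_neg).1 h'))).2]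
          rw [g2, g3]
          ring
        · rfl
  have s2 : |((∑ n ∈ (Icc 1 Y).filter Squarefree, φ₂ n : ℤ) : ℝ)| ≤ (2 : ℕ) * m * Real.sqrt Y := by
    obtain ⟨u, hu1, hu2, hu3⟩ := H.f₂
    obtain ⟨u', k1, k2⟩ := key u hu1 hu2
    refine flip_sum hm0 k1 (B := 2) (fun n => ?_) (fun n => ?_) (fun n => ?_) Y
    · rw [hφ₂]
      show |ite _ _ _| ≤ _
      split_ifs
      · exact_mod_cast psi_le H r n
      · norm_num
    · show ite _ _ _ = ite _ _ _
      rw [psi_per H r (dvd_refl _)]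
      simp only [dvd_mod h1m, dvd_mod h2m]
    · show ite _ _ _ = - ite _ _ _
      have g1 : ∀ {q : ℕ}, q ∣ m → ((q : ℤ) ∣ ((u' * n : ℕ) : ℤ) ↔ (q : ℤ) ∣ (n : ℤ)) := by
        intro q hq
        push_cast
        exact ⟨fun h => hcop (Nat.Coprime.coprime_dvd_right hq k1) h, fun h => h.mul_left _⟩
      have g0 : ((q₁ : ℤ) ∣ ((u' * n : ℕ) : ℤ) ∧ ¬ (q₂ : ℤ) ∣ ((u' * n : ℕ) : ℤ)) ↔
          ((q₁ : ℤ) ∣ (n : ℤ) ∧ ¬ (q₂ : ℤ) ∣ (n : ℤ)) := and_congr (g1 h1m) (not_congr (g1 h2m))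
      by_cases h : (q₁ : ℤ) ∣ (n : ℤ) ∧ ¬ (q₂ : ℤ) ∣ (n : ℤ)
      · rw [if_pos (g0.2 h), if_pos h]
        unfold psi
        rw [hgu k1]
        split_ifs
        · have g2 : v ((u' * n : ℕ) : ℤ) = - v n := by
            push_cast
            rw [H.per _ _ (k2 n), (hu3 n h.1 h.2).2]
          have g3 : v (-((u' * n : ℕ) : ℤ)) = - v (-(n : ℤ)) := by
            have e : -((u' * n : ℕ) : ℤ) = u' * (-(n : ℤ)) := by push_cast; ring
            rw [e, H.per _ _ (k2 _), (hu3 (-(n : ℤ)) ((dvd_neg).2 h.1)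
              (fun h' => h.2 ((dvd_neg).1 h'))).2]
          rw [g2, g3]
          ring
        · rfl
      · rw [if_neg (fun h' => h (g0.1 h')), if_neg h, neg_zero]
  have e2 : 2 * (NS (fun f : ℤ => Nat.gcd f.natAbs E = r ∧ wt v f = 1) Y : ℝ) -
      (NS (fun f : ℤ => Nat.gcd f.natAbs E = r) Y : ℝ) =
      ((∑ n ∈ (Icc 1 Y).filter Squarefree, φ₁ n : ℤ) : ℝ) +
        ((∑ n ∈ (Icc 1 Y).filter Squarefree, φ₂ n : ℤ) : ℝ) := by
    rw [← Int.cast_add, ← sum_add_distrib, ← sum_congr rfl fun n _ => e1 n, ← e0]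
    push_cast
    ring
  rw [e2]
  refine (abs_add_le _ _).trans ?_
  have h9 := add_le_add s1 s2
  refine h9.trans (le_of_eq ?_)
  push_cast
  ring

end

end Pool.Agent.N855.TG
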