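import Pool.Agent.N855.GF.Tw
import Pool.Agent.N855.TG.Half

/-!
# The density of a criterion for the twists of a twist
-/

set_option autoImplicit false

open scoped Classical

namespace Pool.Agent.N855.TG

open Finset Filter Topology
open Pool.Agent.N919.BS (NN NS NF HG ratio NF_eq NS_eq low1 sq_cast)
open Pool.Agent.N855.GF.Lc17 (close_NS)
open Pool.Agent.N855.GF.Tw (tw T T_eq tw_sqf split tw_eq)

section

variable {e : ℤ} (he : Squarefree e)

include he

theorem close_TG {P G : ℤ → Prop} {c : ℝ}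
    (hH : ∀ r : ℕ, HG (fun d => P d ∧ Int.gcd d e = r) G c) :
    ∀ ε : ℝ, 0 < ε → ∃ X₀ : ℕ, ∀ X : ℕ, X₀ ≤ X →
      |(T e (fun d => P d ∧ G d) X : ℝ) - c * (T e P X : ℝ)| ≤ ε * X := by
  intro ε hε
  have he0 : 0 < e.natAbs := Int.natAbs_pos.2 he.ne_zero
  set E : ℕ := e.natAbs with hE
  have h1 : ∀ g : ℕ, ∃ X₀ : ℕ, ∀ X : ℕ, X₀ ≤ X →
      |(NS (fun d => (P d ∧ Int.gcd d e = E / g) ∧ G d) X : ℝ) -
        c * (NS (fun d => P d ∧ Int.gcd d e = E / g) X : ℝ)| ≤ ε / (E * (E.divisors.card + 1)) * X :=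
    fun g => close_NS (hH (E / g)) _ (by positivity)
  choose X₀ hX₀ using h1
  refine ⟨E * ∑ g ∈ E.divisors, X₀ g, fun X hX => ?_⟩
  rw [T_eq he, T_eq he]
  push_cast
  rw [mul_sum, ← sum_sub_distrib]
  refine (abs_sum_le_sum_abs _ _).trans ?_
  have hb : ∀ g ∈ E.divisors, |(NS (fun f => Int.gcd f e = E / g ∧ P f ∧ G f)
      (E / g * X / g) : ℝ) - c * (NS (fun f => Int.gcd f e = E / g ∧ P f) (E / g * X / g) : ℝ)| ≤
      ε / (E.divisors.card + 1) * X := by
    intro g hg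
    obtain ⟨hge, -⟩ := Nat.mem_divisors.1 hg
    have hg0 : 0 < g := Nat.pos_of_dvd_of_pos hge he0
    have hEg : 0 < E / g := Nat.div_pos (Nat.le_of_dvd he0 hge) hg0
    have hY0 : X₀ g ≤ E / g * X / g := by
      rw [Nat.le_div_iff_mul_le hg0]
      have k1 : X₀ g ≤ ∑ g ∈ E.divisors, X₀ g :=
        single_le_sum (f := X₀) (fun _ _ => Nat.zero_le _) hg
      have k2 : X₀ g * g ≤ (∑ g ∈ E.divisors, X₀ g) * E :=
        Nat.mul_le_mul k1 (Nat.le_of_dvd he0 hge)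
      have k3 : 1 * X ≤ E / g * X := Nat.mul_le_mul_right X hEg
      calc X₀ g * g ≤ (∑ g ∈ E.divisors, X₀ g) * E := k2
        _ = E * ∑ g ∈ E.divisors, X₀ g := mul_comm _ _
        _ ≤ X := hX
        _ ≤ E / g * X := by omega
    have hY1 : E / g * X / g ≤ E * X := by
      refine (Nat.div_le_self _ _).trans (Nat.mul_le_mul_right X (Nat.div_le_self _ _))
    have h2 := hX₀ g _ hY0
    have e1 : (fun f => Int.gcd f e = E / g ∧ P f ∧ G f) =
        fun d => (P d ∧ Int.gcd d e = E / g) ∧ G d := by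
      funext f
      exact propext ⟨fun h => ⟨⟨h.2.1, h.1⟩, h.2.2⟩, fun h => ⟨h.1.2, h.1.1, h.2⟩⟩
    have e2 : (fun f => Int.gcd f e = E / g ∧ P f) = fun d => P d ∧ Int.gcd d e = E / g := by
      funext f
      exact propext and_comm
    rw [e1, e2]
    refine h2.trans ?_
    have hY2 : ((E / g * X / g : ℕ) : ℝ) ≤ E * X := by exact_mod_cast hY1
    have hEr : (0 : ℝ) < E := by exact_mod_cast he0
    calc ε / (E * (E.divisors.card + 1)) * ((E / g * X / g : ℕ) : ℝ) ≤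
        ε / (E * (E.divisors.card + 1)) * (E * X) := by gcongr
      _ = ε / (E.divisors.card + 1) * X := by field_simp
  refine (sum_le_sum hb).trans ?_
  rw [sum_const, nsmul_eq_mul]
  have hc : (0 : ℝ) ≤ (E.divisors.card : ℝ) := Nat.cast_nonneg _
  rw [← mul_assoc]
  refine mul_le_mul_of_nonneg_right ?_ (Nat.cast_nonneg _)
  rw [mul_div_assoc', div_le_iff₀ (by positivity)]
  nlinarith

theorem T_true (Q : ℤ → Prop) (hQ : ∀ d, Q d) (X : ℕ) : T e Q X = NS (fun _ => True) X := by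
  unfold Pool.Agent.N855.GF.Tw.T Pool.Agent.N919.BS.NS
  congr 1
  ext d
  simp only [mem_filter, hQ, and_true]

/-- **half of the twists** -/
theorem half_TG {q₁ q₂ : ℕ} {v : ℤ → ℤ} (H : Rn q₁ q₂ v) :
    ∀ ε : ℝ, 0 < ε → ∃ X₀ : ℕ, ∀ X : ℕ, X₀ ≤ X →
      |2 * (T e (fun d => wt v d = 1) X : ℝ) - (NS (fun _ => True) X : ℝ)| ≤ ε * X := by
  intro ε hε
  have he0 : 0 < e.natAbs := Int.natAbs_pos.2 he.ne_zero
  set E : ℕ := e.natAbs with hE
  set K : ℝ := 4 * (q₁ * q₂ * E : ℕ) * E * (E.divisors.card + 1) / ε with hK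
  have hK0 : 0 ≤ K := by positivity
  refine ⟨⌈K ^ 2⌉₊, fun X hX => ?_⟩
  have hXK : K ^ 2 ≤ X := (Nat.le_ceil _).trans (by exact_mod_cast hX)
  have hsq : K ≤ Real.sqrt X := Real.le_sqrt_of_sq_le hXK
  have hss : Real.sqrt X * Real.sqrt X = X := Real.mul_self_sqrt (Nat.cast_nonneg _)
  rw [← T_true he (fun _ => True) (fun _ => trivial) X, T_eq he, T_eq he]
  push_cast
  rw [mul_sum, ← sum_sub_distrib]
  refine (abs_sum_le_sum_abs _ _).trans ?_
  have hb : ∀ g ∈ E.divisors, |2 * (NS (fun f => Int.gcd f e = E / g ∧ wt v f = 1)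
      (E / g * X / g) : ℝ) - (NS (fun f => Int.gcd f e = E / g ∧ True) (E / g * X / g) : ℝ)| ≤
      4 * (q₁ * q₂ * E : ℕ) * (E * Real.sqrt X) := by
    intro g hg
    obtain ⟨hge, -⟩ := Nat.mem_divisors.1 hg
    have hg0 : 0 < g := Nat.pos_of_dvd_of_pos hge he0
    have hY1 : E / g * X / g ≤ E * X := by
      refine (Nat.div_le_self _ _).trans (Nat.mul_le_mul_right X (Nat.div_le_self _ _))
    have h2 := half_gcd H he0 (E / g) (E / g * X / g)
    have e1 : (fun f : ℤ => Nat.gcd f.natAbs E = E / g ∧ wt v f = 1) =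
        fun f => Int.gcd f e = E / g ∧ wt v f = 1 := rfl
    have e2 : (fun f : ℤ => Nat.gcd f.natAbs E = E / g) = fun f => Int.gcd f e = E / g ∧ True := by
      funext f
      rw [and_true]
      rfl
    rw [e1, e2] at h2
    refine h2.trans (mul_le_mul_of_nonneg_left ?_ (by positivity))
    have hY2 : ((E / g * X / g : ℕ) : ℝ) ≤ (E : ℝ) ^ 2 * X := by
      have h3 : ((E / g * X / g : ℕ) : ℝ) ≤ E * X := by exact_mod_cast hY1
      have h4 : (E : ℝ) ≤ (E : ℝ) ^ 2 := by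
        have : (1 : ℝ) ≤ E := by exact_mod_cast he0
        nlinarith
      refine h3.trans (mul_le_mul_of_nonneg_right h4 (Nat.cast_nonneg _))
    calc Real.sqrt ((E / g * X / g : ℕ) : ℝ) ≤ Real.sqrt ((E : ℝ) ^ 2 * X) := Real.sqrt_le_sqrt hY2
      _ = E * Real.sqrt X := by
        rw [Real.sqrt_mul (by positivity), Real.sqrt_sq (Nat.cast_nonneg _)]
  refine (sum_le_sum hb).trans ?_
  rw [sum_const, nsmul_eq_mul]
  have h5 : (E.divisors.card : ℝ) * (4 * (q₁ * q₂ * E : ℕ) * (E * Real.sqrt X)) ≤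
      ε * K * Real.sqrt X := by
    have e3 : ε * K = 4 * (q₁ * q₂ * E : ℕ) * E * (E.divisors.card + 1) := by
      rw [hK]
      field_simp
    rw [e3]
    have h6 : 0 ≤ (4 : ℝ) * (q₁ * q₂ * E : ℕ) * (E * Real.sqrt X) := by positivity
    have h7 : (E.divisors.card : ℝ) ≤ E.divisors.card + 1 := by linarith
    calc (E.divisors.card : ℝ) * (4 * (q₁ * q₂ * E : ℕ) * (E * Real.sqrt X)) ≤
        (E.divisors.card + 1) * (4 * (q₁ * q₂ * E : ℕ) * (E * Real.sqrt X)) :=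
          mul_le_mul_of_nonneg_right h7 h6
      _ = _ := by ring
  refine h5.trans ?_
  calc ε * K * Real.sqrt X ≤ ε * Real.sqrt X * Real.sqrt X := by gcongr
    _ = ε * X := by rw [mul_assoc, hss]

/-- **the density for the twists of a twist** -/
theorem lim_TG {q₁ q₂ : ℕ} {v : ℤ → ℤ} (H : Rn q₁ q₂ v) {G : ℤ → Prop} {c : ℝ} (hc0 : 0 ≤ c)
    (hc1 : c ≤ 1) (hH : ∀ r : ℕ, HG (fun d => wt v d = 1 ∧ Int.gcd d e = r) G c) :
    Tendsto (fun X : ℕ => (T e (fun d => wt v d = 1 ∧ G d) X : ℝ) / (NS (fun _ => True) X : ℝ))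
      atTop (𝓝 (c / 2)) := by
  obtain ⟨c₁, X₁, hc₁, hlow⟩ := low1
  refine ratio hc₁ (X₁ := X₁) (fun X hX => (hlow X hX).trans ?_) ?_
  · rw [NS_eq]
    exact_mod_cast (by omega)
  · intro ε hε
    obtain ⟨X₂, h2⟩ := close_TG he hH (ε / 2) (by positivity)
    obtain ⟨X₃, h3⟩ := half_TG he H (ε / 2) (by positivity)
    refine ⟨X₂ + X₃, fun X hX => ?_⟩
    have k2 := h2 X (by omega)
    have k3 := h3 X (by omega)
    set A : ℝ := (T e (fun d => wt v d = 1 ∧ G d) X : ℝ)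
    set B : ℝ := (T e (fun d => wt v d = 1) X : ℝ)
    set D : ℝ := (NS (fun _ => True) X : ℝ)
    have e1 : A - c / 2 * D = (A - c * B) + c / 2 * (2 * B - D) := by ring
    rw [e1]
    refine (abs_add_le _ _).trans ?_
    have h4 : |c / 2 * (2 * B - D)| ≤ ε / 2 * X := by
      rw [abs_mul, abs_of_nonneg (by linarith)]
      calc c / 2 * |2 * B - D| ≤ 1 * |2 * B - D| :=
            mul_le_mul_of_nonneg_right (by linarith) (abs_nonneg _)
        _ ≤ ε / 2 * X := by rw [one_mul]; exact k3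
    calc |A - c * B| + |c / 2 * (2 * B - D)| ≤ ε / 2 * X + ε / 2 * X := add_le_add k2 h4
      _ = ε * X := by ring

end

end Pool.Agent.N855.TG
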