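import Pool.Agent.N916.PQ.Main21
import Pool.Agent.N855.TG.TwG

/-!
# Level 21: the proportion of the exceptional class for the twists of a twist
-/

set_option autoImplicit false

open scoped Classical

namespace Pool.Agent.N855.TG

open Finset Filter Topology
open Pool.Agent.N919.BS (UU eqd NN NS NF HG low1 NS_eq)
open Pool.Agent.N855.GF.Tw (tw T T_eq tw_sqf split tw_eq)
open Pool.Agent.N809.Red21 (fD f21 fD_iff)
open Pool.Agent.N809.PQ (C3 C7 w21 Sg21)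

/-- the symbol modulo `3` -/
def c3 (n : ℤ) : ℤ := if n % 3 = 1 then 1 else if n % 3 = 2 then -1 else 0

/-- the symbol modulo `7` -/
def c7 (n : ℤ) : ℤ :=
  if n % 7 = 0 then 0 else if n % 7 = 3 ∨ n % 7 = 5 ∨ n % 7 = 6 then -1 else 1

/-- the indicator of the multiples of `7` -/
def z7 (n : ℤ) : ℤ := if n % 7 = 0 then 1 else 0

/-- the indicator of the numbers prime to `3` -/
def y3 (n : ℤ) : ℤ := if n % 3 = 0 then 0 else 1

theorem c3_u (n : ℤ) : c3 (8 * n) = - c3 n := by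
  unfold c3
  have h : 8 * n % 3 = 2 * (n % 3) % 3 := by omega
  rw [h]
  rcases (by omega : n % 3 = 0 ∨ n % 3 = 1 ∨ n % 3 = 2) with h | h | h <;> rw [h] <;> norm_num

theorem c7_u (n : ℤ) : c7 (8 * n) = c7 n := by
  unfold c7
  have h : 8 * n % 7 = n % 7 := by omega
  rw [h]

theorem z7_u (n : ℤ) : z7 (8 * n) = z7 n := by
  unfold z7
  have h : 8 * n % 7 = n % 7 := by omega
  rw [h]

theorem c7_v (n : ℤ) : c7 (10 * n) = - c7 n := by
  unfold c7
  have h : 10 * n % 7 = 3 * (n % 7) % 7 := by omega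
  rw [h]
  rcases (by omega : n % 7 = 0 ∨ n % 7 = 1 ∨ n % 7 = 2 ∨ n % 7 = 3 ∨ n % 7 = 4 ∨ n % 7 = 5 ∨
    n % 7 = 6) with h | h | h | h | h | h | h <;> rw [h] <;> norm_num

theorem y3_v (n : ℤ) : y3 (10 * n) = y3 n := by
  unfold y3
  have h : 10 * n % 3 = n % 3 := by omega
  rw [h]

/-- the first part -/
def fa (n : ℤ) : ℤ := c3 n * (2 * z7 n + 2 + 2 * c7 n)

/-- the second part -/
def fb (n : ℤ) : ℤ := 2 * c7 n * y3 n

theorem fa_u (n : ℤ) : fa (8 * n) = - fa n := by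
  unfold fa
  rw [c3_u, c7_u, z7_u]
  ring

theorem fb_v (n : ℤ) : fb (10 * n) = - fb n := by
  unfold fb
  rw [c7_v, y3_v]
  ring

theorem per_fa {a b : ℤ} (h : ((21 : ℕ) : ℤ) ∣ a - b) : fa a = fa b := by
  push_cast at h
  have h3 : a % 3 = b % 3 := by omega
  have h7 : a % 7 = b % 7 := by omega
  unfold fa c3 c7 z7
  rw [h3, h7]

theorem per_fb {a b : ℤ} (h : ((21 : ℕ) : ℤ) ∣ a - b) : fb a = fb b := by
  push_cast at h
  have h3 : a % 3 = b % 3 := by omega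
  have h7 : a % 7 = b % 7 := by omega
  unfold fb c7 y3
  rw [h3, h7]

theorem fa_le (n : ℤ) : |fa n| ≤ 4 := by
  unfold fa c3 c7 z7
  split_ifs <;> norm_num

theorem fb_le (n : ℤ) : |fb n| ≤ 2 := by
  unfold fb c7 y3
  split_ifs <;> norm_num

/-- the numbers prime to `21` -/
def P1 (m : ℤ) : Prop := ¬ (3 : ℤ) ∣ m ∧ ¬ (7 : ℤ) ∣ m

/-- the multiples of `7` prime to `3` -/
def P2 (m : ℤ) : Prop := ¬ (3 : ℤ) ∣ m ∧ (7 : ℤ) ∣ m

/-- the decomposition -/
theorem ab_eq (n : ℤ) : fa n + fb n = 8 * (if C3 n ∧ ¬ C7 n then 1 else 0) -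
    2 * (if P1 n then 1 else 0) - 4 * (if P2 n then 1 else 0) := by
  have e1 : (3 : ℤ) ∣ n ↔ n % 3 = 0 := by omega
  have e2 : (7 : ℤ) ∣ n ↔ n % 7 = 0 := by omega
  unfold fa fb c3 c7 z7 y3 P1 P2 C3 C7
  rw [e1, e2]
  rcases (by omega : n % 3 = 0 ∨ n % 3 = 1 ∨ n % 3 = 2) with h | h | h <;>
    rcases (by omega : n % 7 = 0 ∨ n % 7 = 1 ∨ n % 7 = 2 ∨ n % 7 = 3 ∨ n % 7 = 4 ∨ n % 7 = 5 ∨
      n % 7 = 6) with h' | h' | h' | h' | h' | h' | h' <;> rw [h, h'] <;> norm_num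

/-- the sum of a function which changes the sign, with a condition on the divisor -/
theorem flip_gcd {F : ℤ → ℤ} {B u : ℕ} (hB : ∀ n, |F n| ≤ B) (hu1 : u < 21)
    (hu2 : u.Coprime 21) (hper : ∀ a b : ℤ, ((21 : ℕ) : ℤ) ∣ a - b → F a = F b)
    (hf : ∀ n : ℤ, F (u * n) = - F n) {E : ℕ} (hE : 0 < E) (r Y : ℕ) :
    |((∑ n ∈ (Icc 1 Y).filter Squarefree, (if Nat.gcd n E = r then F n else 0) : ℤ) : ℝ)| ≤
      B * (21 * E : ℕ) * Real.sqrt Y := by
  have hm0 : 0 < 21 * E := by omega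
  have hqm : 21 ∣ 21 * E := Dvd.intro _ rfl
  have hEm : E ∣ 21 * E := Dvd.intro_left _ rfl
  obtain ⟨u', -, k1, k3⟩ := exists_lift hqm hm0 hu1 hu2
  have k2 : ∀ d : ℤ, ((21 : ℕ) : ℤ) ∣ u' * d - u * d := by
    intro d
    rw [← sub_mul]
    refine Dvd.dvd.mul_right ?_ d
    have h4 : u ≡ u' [MOD 21] := by
      show u % 21 = u' % 21
      rw [k3, Nat.mod_eq_of_lt hu1]
    exact Nat.modEq_iff_dvd.1 h4
  refine flip_sum hm0 k1 (B := B) (fun n => ?_) (fun n => ?_) (fun n => ?_) Y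
  · split_ifs
    · exact hB _
    · rw [abs_zero]
      exact Nat.cast_nonneg _
  · have h1 : Nat.gcd (n % (21 * E)) E = Nat.gcd n E :=
      ((Nat.mod_modEq n (21 * E)).of_dvd hEm).gcd_eq
    have h3 : ((21 : ℕ) : ℤ) ∣ ((n % (21 * E) : ℕ) : ℤ) - n := by
      have h4 : n ≡ n % (21 * E) [MOD 21] := ((Nat.mod_modEq n (21 * E)).of_dvd hqm).symm
      exact (Nat.modEq_iff_dvd).1 h4
    rw [h1, hper _ _ h3]
  · have h1 : Nat.gcd (u' * n) E = Nat.gcd n E :=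
      Nat.Coprime.gcd_mul_left_cancel n (Nat.Coprime.coprime_dvd_right hEm k1)
    have h2 : F ((u' * n : ℕ) : ℤ) = - F n := by
      push_cast
      rw [hper _ _ (k2 n), hf]
    rw [h1, h2]
    split_ifs
    · rfl
    · rw [neg_zero]

/-- **the exceptional class with a condition on the divisor** -/
theorem exc_gcd {E : ℕ} (hE : 0 < E) (r Y : ℕ) :
    |8 * (NS (fun f : ℤ => Nat.gcd f.natAbs E = r ∧ fD f = true) Y : ℝ) -
      (NS (fun f : ℤ => Nat.gcd f.natAbs E = r ∧ P1 f) Y : ℝ) -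
      2 * (NS (fun f : ℤ => Nat.gcd f.natAbs E = r ∧ P2 f) Y : ℝ)| ≤
      6 * (21 * E : ℕ) * Real.sqrt Y := by
  have e0 : (8 * (NS (fun f : ℤ => Nat.gcd f.natAbs E = r ∧ fD f = true) Y : ℤ) -
      (NS (fun f : ℤ => Nat.gcd f.natAbs E = r ∧ P1 f) Y : ℤ) -
      2 * (NS (fun f : ℤ => Nat.gcd f.natAbs E = r ∧ P2 f) Y : ℤ)) =
      ∑ n ∈ (Icc 1 Y).filter Squarefree, (if Nat.gcd n E = r then fa n else 0) +
        ∑ n ∈ (Icc 1 Y).filter Squarefree, (if Nat.gcd n E = r then fb n else 0) := by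
    rw [NS_split, NS_split, NS_split]
    have e1 : ∀ P : ℕ → Prop, (((Icc 1 Y).filter fun n : ℕ => Squarefree n ∧ P n).card : ℤ) =
        ∑ n ∈ (Icc 1 Y).filter Squarefree, if P n then 1 else 0 := by
      intro P
      rw [← sum_filter, filter_filter, sum_const, nsmul_eq_mul, mul_one]
    push_cast
    rw [e1, e1, e1, e1, e1, e1, ← sum_add_distrib, ← sum_add_distrib, ← sum_add_distrib,
      ← sum_add_distrib, mul_sum, mul_sum, ← sum_sub_distrib, ← sum_sub_distrib]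
    refine sum_congr rfl fun n hn => ?_
    rw [mem_filter, mem_Icc] at hn
    have hn0 : 0 < n := hn.1.1
    have w1 : fD (n : ℤ) = true ↔ C3 (n : ℤ) ∧ ¬ C7 (n : ℤ) := by
      rw [fD_iff]
      exact ⟨fun h => h.2, fun h => ⟨by omega, h⟩⟩
    have w2 : ¬ fD (-(n : ℤ)) = true := by
      rw [fD_iff]
      rintro ⟨h, -⟩
      omega
    have w3 : P1 (-(n : ℤ)) ↔ P1 (n : ℤ) := by
      unfold P1
      rw [dvd_neg, dvd_neg]
    have w4 : P2 (-(n : ℤ)) ↔ P2 (n : ℤ) := by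
      unfold P2
      rw [dvd_neg, dvd_neg]
    rw [Int.natAbs_neg, Int.natAbs_natCast, w3, w4]
    by_cases h : Nat.gcd n E = r
    · have h5 := ab_eq (n : ℤ)
      simp only [h, w1, w2, true_and, if_true, if_false, add_zero, Bool.false_eq_true]
      have h6 : (8 : ℤ) * (if C3 (n : ℤ) ∧ ¬ C7 (n : ℤ) then 1 else 0) -
          ((if P1 (n : ℤ) then 1 else 0) + (if P1 (n : ℤ) then 1 else 0)) -
          2 * ((if P2 (n : ℤ) then 1 else 0) + (if P2 (n : ℤ) then 1 else 0)) =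
          fa (n : ℤ) + fb (n : ℤ) := by
        rw [h5]
        ring
      exact (by convert h6)
    · simp only [h, false_and, if_false, mul_zero, add_zero, sub_zero]
  have e1 : 8 * (NS (fun f : ℤ => Nat.gcd f.natAbs E = r ∧ fD f = true) Y : ℝ) -
      (NS (fun f : ℤ => Nat.gcd f.natAbs E = r ∧ P1 f) Y : ℝ) -
      2 * (NS (fun f : ℤ => Nat.gcd f.natAbs E = r ∧ P2 f) Y : ℝ) =
      ((∑ n ∈ (Icc 1 Y).filter Squarefree, (if Nat.gcd n E = r then fa n else 0) : ℤ) : ℝ) +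
        ((∑ n ∈ (Icc 1 Y).filter Squarefree, (if Nat.gcd n E = r then fb n else 0) : ℤ) : ℝ) := by
    rw [← Int.cast_add, ← e0]
    push_cast
    ring
  rw [e1]
  have s1 := flip_gcd (F := fa) (B := 4) (u := 8) fa_le (by norm_num) (by norm_num)
    (fun a b => per_fa) fa_u hE r Y
  have s2 := flip_gcd (F := fb) (B := 2) (u := 10) fb_le (by norm_num) (by norm_num)
    (fun a b => per_fb) fb_v hE r Y
  refine (abs_add_le _ _).trans ?_
  have h9 := add_le_add s1 s2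
  refine h9.trans (le_of_eq ?_)
  push_cast
  ring

section

variable {e : ℤ} (he : Squarefree e)

include he

/-- **the exceptional class for the twists** -/
theorem exc_T : ∀ ε : ℝ, 0 < ε → ∃ X₀ : ℕ, ∀ X : ℕ, X₀ ≤ X →
      |8 * (T e (fun d => fD d = true) X : ℝ) - (T e P1 X : ℝ) - 2 * (T e P2 X : ℝ)| ≤ ε * X := by
  intro ε hε
  have he0 : 0 < e.natAbs := Int.natAbs_pos.2 he.ne_zero
  set E : ℕ := e.natAbs with hE
  set K : ℝ := 6 * (21 * E : ℕ) * E * (E.divisors.card + 1) / ε with hK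
  have hK0 : 0 ≤ K := by positivity
  refine ⟨⌈K ^ 2⌉₊, fun X hX => ?_⟩
  have hXK : K ^ 2 ≤ X := (Nat.le_ceil _).trans (by exact_mod_cast hX)
  have hsq : K ≤ Real.sqrt X := Real.le_sqrt_of_sq_le hXK
  have hss : Real.sqrt X * Real.sqrt X = X := Real.mul_self_sqrt (Nat.cast_nonneg _)
  rw [T_eq he, T_eq he, T_eq he]
  push_cast
  rw [mul_sum, mul_sum, ← sum_sub_distrib, ← sum_sub_distrib]
  refine (abs_sum_le_sum_abs _ _).trans ?_
  have hb : ∀ g ∈ E.divisors, |8 * (NS (fun f => Int.gcd f e = E / g ∧ fD f = true)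
      (E / g * X / g) : ℝ) - (NS (fun f => Int.gcd f e = E / g ∧ P1 f) (E / g * X / g) : ℝ) -
      2 * (NS (fun f => Int.gcd f e = E / g ∧ P2 f) (E / g * X / g) : ℝ)| ≤
      6 * (21 * E : ℕ) * (E * Real.sqrt X) := by
    intro g hg
    obtain ⟨hge, -⟩ := Nat.mem_divisors.1 hg
    have hg0 : 0 < g := Nat.pos_of_dvd_of_pos hge he0
    have hY1 : E / g * X / g ≤ E * X := by
      refine (Nat.div_le_self _ _).trans (Nat.mul_le_mul_right X (Nat.div_le_self _ _))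
    have h2 := exc_gcd he0 (E / g) (E / g * X / g)
    refine h2.trans (mul_le_mul_of_nonneg_left ?_ (by positivity))
    have hY2 : ((E / g * X / g : ℕ) : ℝ) ≤ (E : ℝ) ^ 2 * X := by
      have h3 : ((E / g * X / g : ℕ) : ℝ) ≤ E * X := by exact_mod_cast hY1
      have h4 : (E : ℝ) ≤ (E : ℝ) ^ 2 := by
        have : (1 : ℝ) ≤ E := by exact_mod_cast he0
        nlinarith
      refine h3.trans (mul_le_mul_of_nonneg_right h4 (Nat.cast_nonneg _))
    calc Real.sqrt ((E / g * X / g : ℕ) : ℝ) ≤ Real.sqrt ((E : ℝ) ^ 2 * X) := Real.sqrt_le_sqrt hY2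
      _ = E * Real.sqrt X := by
        rw [Real.sqrt_mul (by positivity), Real.sqrt_sq (Nat.cast_nonneg _)]
  refine (sum_le_sum hb).trans ?_
  rw [sum_const, nsmul_eq_mul]
  have h5 : (E.divisors.card : ℝ) * (6 * (21 * E : ℕ) * (E * Real.sqrt X)) ≤
      ε * K * Real.sqrt X := by
    have e3 : ε * K = 6 * (21 * E : ℕ) * E * (E.divisors.card + 1) := by
      rw [hK]
      field_simp
    rw [e3]
    have h6 : 0 ≤ (6 : ℝ) * (21 * E : ℕ) * (E * Real.sqrt X) := by positivity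
    have h7 : (E.divisors.card : ℝ) ≤ E.divisors.card + 1 := by linarith
    calc (E.divisors.card : ℝ) * (6 * (21 * E : ℕ) * (E * Real.sqrt X)) ≤
        (E.divisors.card + 1) * (6 * (21 * E : ℕ) * (E * Real.sqrt X)) :=
          mul_le_mul_of_nonneg_right h7 h6
      _ = _ := by ring
  refine h5.trans ?_
  calc ε * K * Real.sqrt X ≤ ε * Real.sqrt X * Real.sqrt X := by gcongr
    _ = ε * X := by rw [mul_assoc, hss]

/-- the divisibility of the twist by a prime -/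
theorem dvd_tw {d : ℤ} (hd : Squarefree d) {p : ℕ} (hp : p.Prime) :
    (p : ℤ) ∣ tw e d ↔ ¬ ((p : ℤ) ∣ d ↔ (p : ℤ) ∣ e) := by
  obtain ⟨g, e', d', hg, h1, h2, h3, h4, h5, h6, h7, h8⟩ := split he hd
  have hpi := Nat.prime_iff_prime_int.1 hp
  have key : ∀ {x y : ℤ}, Int.gcd x y = 1 → (p : ℤ) ∣ x → ¬ (p : ℤ) ∣ y := by
    intro x y hxy hx hy
    have h9 : (p : ℤ) ∣ (Int.gcd x y : ℕ) := Int.dvd_coe_gcd hx hy
    rw [hxy] at h9
    have h10 : p ∣ 1 := by exact_mod_cast h9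
    exact hp.one_lt.ne' (Nat.dvd_one.1 h10)
  rw [tw_eq hg h1 h2 h3, h2, h3, hpi.dvd_mul, hpi.dvd_mul, hpi.dvd_mul]
  have k1 := key h4
  have k2 := key h5
  have k3 := key h6
  tauto

end

end Pool.Agent.N855.TG
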