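import Pool.Agent.N855.GF.Tw
import Pool.Agent.N855.GF.TwL

/-!
# The `L`-functions and the ranks of the twists of a twist
-/

set_option autoImplicit false

namespace Pool.Agent.N855.TG

open Finset

/-- the number of the affine points modulo `p` -/
noncomputable def pts (a b d : ℤ) (p : ℕ) : ℕ := Nat.card {q : ZMod p × ZMod p //
  q.2 ^ 2 = q.1 ^ 3 + ((a * d ^ 2 : ℤ) : ZMod p) * q.1 + ((b * d ^ 3 : ℤ) : ZMod p)}

theorem pts_scale {a b t g : ℤ} {p : ℕ} (hp : p.Prime) (hg : ¬ (p : ℤ) ∣ g) :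
    pts a b (g ^ 2 * t) p = pts a b t p := by
  have : Fact p.Prime := ⟨hp⟩
  have hg0 : (g : ZMod p) ≠ 0 := fun h => hg ((ZMod.intCast_zmod_eq_zero_iff_dvd g p).1 h)
  unfold pts
  symm
  refine Nat.card_congr (Equiv.subtypeEquiv (Equiv.prodCongr
    (Equiv.mulLeft₀ ((g : ZMod p) ^ 2) (pow_ne_zero 2 hg0))
    (Equiv.mulLeft₀ ((g : ZMod p) ^ 3) (pow_ne_zero 3 hg0))) fun q => ?_)
  obtain ⟨x, y⟩ := q
  show y ^ 2 = x ^ 3 + ((a * t ^ 2 : ℤ) : ZMod p) * x + ((b * t ^ 3 : ℤ) : ZMod p) ↔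
    ((g : ZMod p) ^ 3 * y) ^ 2 = ((g : ZMod p) ^ 2 * x) ^ 3 +
      ((a * (g ^ 2 * t) ^ 2 : ℤ) : ZMod p) * ((g : ZMod p) ^ 2 * x) +
      ((b * (g ^ 2 * t) ^ 3 : ℤ) : ZMod p)
  push_cast
  have h6 : (g : ZMod p) ^ 6 ≠ 0 := pow_ne_zero 6 hg0
  constructor
  · intro h
    calc ((g : ZMod p) ^ 3 * y) ^ 2 = (g : ZMod p) ^ 6 * y ^ 2 := by ring
      _ = _ := by rw [h]; ring
  · intro h
    apply mul_left_cancel₀ h6
    calc (g : ZMod p) ^ 6 * y ^ 2 = ((g : ZMod p) ^ 3 * y) ^ 2 := by ring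
      _ = _ := by rw [h]; ring

theorem pts_le {a b t : ℤ} {p : ℕ} (hp : p.Prime) (hp2 : p ≠ 2) : pts a b t p ≤ 2 * p := by
  classical
  have : Fact p.Prime := ⟨hp⟩
  have hF : ringChar (ZMod p) ≠ 2 := by rwa [ZMod.ringChar_zmod_n]
  unfold pts
  rw [Nat.card_eq_fintype_card, Fintype.card_subtype]
  set f : ZMod p → ZMod p := fun x => x ^ 3 + ((a * t ^ 2 : ℤ) : ZMod p) * x +
    ((b * t ^ 3 : ℤ) : ZMod p) with hf
  have h1 : (univ.filter fun q : ZMod p × ZMod p => q.2 ^ 2 = f q.1).card =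
      ∑ x : ZMod p, (univ.filter fun y : ZMod p => y ^ 2 = f x).card := by
    rw [card_eq_sum_card_fiberwise (f := Prod.fst) (t := univ) (fun _ _ => mem_coe.2 (mem_univ _))]
    refine sum_congr rfl fun x _ => ?_
    refine card_bij (fun q _ => q.2) ?_ ?_ ?_
    · rintro ⟨a₁, b₁⟩ h
      rw [mem_filter, mem_filter] at h
      rw [mem_filter]
      have h2 : a₁ = x := h.2
      subst h2
      exact ⟨mem_univ _, h.1.2⟩
    · rintro ⟨a₁, b₁⟩ h ⟨a', b'⟩ h' hb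
      rw [mem_filter] at h h'
      exact Prod.ext (h.2.trans h'.2.symm) hb
    · intro y hy
      rw [mem_filter] at hy
      refine ⟨(x, y), ?_, rfl⟩
      rw [mem_filter, mem_filter]
      exact ⟨⟨mem_univ _, hy.2⟩, rfl⟩
  rw [h1]
  calc ∑ x : ZMod p, (univ.filter fun y : ZMod p => y ^ 2 = f x).card ≤ ∑ _x : ZMod p, 2 := by
        refine sum_le_sum fun x _ => ?_
        have h2 := quadraticChar_card_sqrts hF (f x)
        have h3 : ((univ.filter fun y : ZMod p => y ^ 2 = f x).card : ℤ) ≤ 2 := by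
          have e : (univ.filter fun y : ZMod p => y ^ 2 = f x) = {y : ZMod p | y ^ 2 = f x}.toFinset := by
            ext y
            simp
          rw [e, h2]
          have h4 : quadraticChar (ZMod p) (f x) ≤ 1 := by
            by_cases h5 : f x = 0
            · rw [h5]
              simp
            · rcases quadraticChar_dichotomy h5 with h6 | h6 <;> rw [h6]
              norm_num
          linarith
        exact_mod_cast h3
    _ = 2 * p := by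
        rw [sum_const, card_univ, ZMod.card, smul_eq_mul, mul_comm]

/-- the Euler factor -/
noncomputable def ef (a b t : ℤ) (p : ℕ) (s : ℂ) : ℂ :=
  1 - ((p : ℂ) - (pts a b t p : ℂ)) * (p : ℂ) ^ (-s) + (p : ℂ) ^ (1 - 2 * s)

theorem ef_diff (a b t : ℤ) {p : ℕ} (hp : p.Prime) : Differentiable ℂ (ef a b t p) := by
  have h0 : (p : ℂ) ≠ 0 := by exact_mod_cast hp.ne_zero
  unfold ef
  refine ((differentiable_const _).sub ((differentiable_const _).mul ?_)).add ?_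
  · exact (differentiable_id.neg).const_cpow (Or.inl h0)
  · exact ((differentiable_const _).sub ((differentiable_const _).mul differentiable_id)).const_cpow
      (Or.inl h0)

theorem ef_ne {a b t : ℤ} {p : ℕ} (hp : p.Prime) (hp2 : p ≠ 2) {s : ℂ} (hs : (3 : ℝ) / 2 < s.re) :
    ef a b t p s ≠ 0 := by
  have hp3 : 3 ≤ p := by
    have := hp.two_le
    omega
  have hp0 : (0 : ℝ) < p := by exact_mod_cast hp.pos
  have hp3' : (3 : ℝ) ≤ p := by exact_mod_cast hp3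
  intro h
  have h1 : (1 : ℂ) = ((p : ℂ) - (pts a b t p : ℂ)) * (p : ℂ) ^ (-s) - (p : ℂ) ^ (1 - 2 * s) := by
    unfold ef at h
    linear_combination h
  have h2 : (1 : ℝ) ≤ ‖((p : ℂ) - (pts a b t p : ℂ)) * (p : ℂ) ^ (-s)‖ + ‖(p : ℂ) ^ (1 - 2 * s)‖ := by
    calc (1 : ℝ) = ‖(1 : ℂ)‖ := norm_one.symm
      _ = ‖((p : ℂ) - (pts a b t p : ℂ)) * (p : ℂ) ^ (-s) - (p : ℂ) ^ (1 - 2 * s)‖ := by rw [← h1]
      _ ≤ _ := norm_sub_le _ _
  have hcp : ∀ z : ℂ, ‖(p : ℂ) ^ z‖ = (p : ℝ) ^ z.re := fun z =>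
    Complex.norm_natCast_cpow_of_pos hp.pos z
  have ha : ‖(p : ℂ) - (pts a b t p : ℂ)‖ ≤ p := by
    have h3 := @pts_le a b t p hp hp2
    have h4 : ((p : ℂ) - (pts a b t p : ℂ)) = (((p : ℝ) - (pts a b t p : ℝ) : ℝ) : ℂ) := by push_cast; ring
    rw [h4, Complex.norm_real, Real.norm_eq_abs, abs_le]
    have h5 : (pts a b t p : ℝ) ≤ 2 * p := by exact_mod_cast h3
    have h6 : (0 : ℝ) ≤ (pts a b t p : ℝ) := Nat.cast_nonneg _
    constructor <;> linarith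
  set r : ℝ := (p : ℝ) ^ (1 - s.re) with hr
  have hr0 : 0 < r := Real.rpow_pos_of_pos hp0 _
  have e1 : (p : ℝ) * (p : ℝ) ^ (-s.re) = r := by
    rw [hr, sub_eq_add_neg, Real.rpow_add hp0, Real.rpow_one]
  have e2 : (p : ℝ) ^ (1 - 2 * s.re) * p = r ^ 2 := by
    rw [hr, ← Real.rpow_natCast, ← Real.rpow_mul hp0.le]
    nth_rewrite 2 [← Real.rpow_one (p : ℝ)]
    rw [← Real.rpow_add hp0]
    congr 1
    push_cast
    ring
  have hr2 : r ^ 2 * p ≤ 1 := by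
    rw [← e2]
    have e3 : (p : ℝ) ^ (1 - 2 * s.re) * p * p = (p : ℝ) ^ (3 - 2 * s.re) := by
      have : (p : ℝ) ^ (3 - 2 * s.re) = (p : ℝ) ^ (1 - 2 * s.re) * (p : ℝ) ^ (2 : ℝ) := by
        rw [← Real.rpow_add hp0]
        congr 1
        ring
      rw [this, Real.rpow_two]
      ring
    rw [e3]
    exact Real.rpow_le_one_of_one_le_of_nonpos (by linarith) (by linarith)
  have hr3 : r ^ 2 ≤ 1 / 3 := by
    have : r ^ 2 * 3 ≤ r ^ 2 * p := mul_le_mul_of_nonneg_left hp3' (sq_nonneg _)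
    linarith
  have hr4 : r ≤ 0.6 := by
    by_contra hcon
    push Not at hcon
    nlinarith
  have h5 : ‖((p : ℂ) - (pts a b t p : ℂ)) * (p : ℂ) ^ (-s)‖ ≤ r := by
    rw [norm_mul, hcp, Complex.neg_re, ← e1]
    exact mul_le_mul_of_nonneg_right ha (Real.rpow_nonneg hp0.le _)
  have h6 : ‖(p : ℂ) ^ (1 - 2 * s)‖ ≤ 1 / 9 := by
    rw [hcp]
    have e4 : (1 - 2 * s).re = 1 - 2 * s.re := by simp
    rw [e4]
    have h7 : (p : ℝ) ^ (1 - 2 * s.re) * 3 ≤ (p : ℝ) ^ (1 - 2 * s.re) * p :=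
      mul_le_mul_of_nonneg_left hp3' (Real.rpow_nonneg hp0.le _)
    rw [e2] at h7
    linarith
  linarith

theorem ef_one {a b t : ℤ} {p : ℕ} (hp : p.Prime) : ef a b t p 1 ≠ 0 := by
  have h0 : (p : ℂ) ≠ 0 := by exact_mod_cast hp.ne_zero
  have e : ef a b t p 1 = (1 + (pts a b t p : ℂ)) / p := by
    unfold ef
    rw [show (1 - 2 * 1 : ℂ) = -1 by norm_num, Complex.cpow_neg_one]
    field_simp
    ring
  rw [e]
  refine div_ne_zero ?_ h0
  have : ((1 + pts a b t p : ℕ) : ℂ) ≠ 0 := by exact_mod_cast (by omega)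
  push_cast at this
  exact this

open Classical in
/-- the `L`-function of the twist by `g² t` -/
theorem L_scale {a b N t : ℤ} (h2N : 2 ∣ N) {g : ℕ} (hg : 0 < g) (ht : ∀ p : ℕ, p.Prime → p ∣ g → ¬ (p : ℤ) ∣ t)
    {F : ℂ → ℂ} (hF : Differentiable ℂ F) (hp : ∀ s : ℂ, (3 : ℝ) / 2 < s.re →
      HasProd (fun p : ℕ => if p.Prime ∧ ¬ ((p : ℤ) ∣ N * t) then (ef a b t p s)⁻¹ else 1) (F s))
    (h1 : F 1 ≠ 0) :
    ∃ F' : ℂ → ℂ, Differentiable ℂ F' ∧ (∀ s : ℂ, (3 : ℝ) / 2 < s.re →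
      HasProd (fun p : ℕ => if p.Prime ∧ ¬ ((p : ℤ) ∣ N * ((g : ℤ) ^ 2 * t)) then
        (ef a b ((g : ℤ) ^ 2 * t) p s)⁻¹ else 1) (F' s)) ∧ F' 1 ≠ 0 := by
  set S : Finset ℕ := g.primeFactors.filter fun p => ¬ (p : ℤ) ∣ N with hS
  have hSp : ∀ p ∈ S, p.Prime ∧ p ∣ g ∧ ¬ (p : ℤ) ∣ N := by
    intro p hp
    rw [hS, mem_filter, Nat.mem_primeFactors] at hp
    exact ⟨hp.1.1, hp.1.2.1, hp.2⟩
  refine ⟨fun s => F s * ∏ p ∈ S, ef a b t p s, ?_, ?_, ?_⟩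
  · refine hF.mul ?_
    have : (fun s => ∏ p ∈ S, ef a b t p s) = ∏ p ∈ S, fun s => ef a b t p s := by
      funext s
      rw [Finset.prod_apply]
    rw [this]
    exact Differentiable.finsetProd fun p hp => ef_diff a b t (hSp p hp).1
  · intro s hs
    have h2 : HasProd (fun p : ℕ => if p ∈ S then ef a b t p s else 1) (∏ p ∈ S, ef a b t p s) := by
      have h3 : HasProd (fun p : ℕ => if p ∈ S then ef a b t p s else 1)
          (∏ p ∈ S, (if p ∈ S then ef a b t p s else 1)) :=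
        hasProd_prod_of_ne_finset_one fun p hp => if_neg hp
      have e : ∏ p ∈ S, (if p ∈ S then ef a b t p s else 1) = ∏ p ∈ S, ef a b t p s :=
        prod_congr rfl fun p hp => if_pos hp
      rwa [e] at h3
    have h4 := (hp s hs).mul h2
    convert h4 using 1
    funext p
    by_cases hpp : p.Prime
    · by_cases hpS : p ∈ S
      · obtain ⟨-, k1, k2⟩ := hSp p hpS
        have k3 : (p : ℤ) ∣ N * ((g : ℤ) ^ 2 * t) := by
          refine Dvd.dvd.mul_left (Dvd.dvd.mul_right (dvd_pow ?_ two_ne_zero) t) N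
          exact_mod_cast k1
        have k4 : ¬ (p : ℤ) ∣ N * t := by
          intro h
          rcases (Nat.prime_iff_prime_int.1 hpp).dvd_or_dvd h with h | h
          · exact k2 h
          · exact ht p hpp k1 h
        have k5 : p ≠ 2 := by
          rintro rfl
          exact k2 (by exact_mod_cast h2N)
        rw [if_neg (fun h => h.2 k3), if_pos ⟨hpp, k4⟩, if_pos hpS, inv_mul_cancel₀ (ef_ne hpp k5 hs)]
      · rw [if_neg hpS, mul_one]
        by_cases k1 : p ∣ g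
        · have k3 : (p : ℤ) ∣ N := by
            by_contra h
            exact hpS (by rw [hS, mem_filter, Nat.mem_primeFactors]; exact ⟨⟨hpp, k1, hg.ne'⟩, h⟩)
          rw [if_neg (fun h => h.2 (Dvd.dvd.mul_right k3 _)),
            if_neg (fun h => h.2 (Dvd.dvd.mul_right k3 _))]
        · have k2 : ¬ (p : ℤ) ∣ (g : ℤ) := by exact_mod_cast k1
          have k3 : ((p : ℤ) ∣ N * ((g : ℤ) ^ 2 * t)) ↔ (p : ℤ) ∣ N * t := by
            have hpi := Nat.prime_iff_prime_int.1 hpp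
            constructor
            · intro h
              rcases hpi.dvd_or_dvd h with h | h
              · exact Dvd.dvd.mul_right h t
              · rcases hpi.dvd_or_dvd h with h | h
                · exact absurd (hpi.dvd_of_dvd_pow h) k2
                · exact Dvd.dvd.mul_left h N
            · intro h
              rcases hpi.dvd_or_dvd h with h | h
              · exact Dvd.dvd.mul_right h _
              · exact Dvd.dvd.mul_left (Dvd.dvd.mul_left h _) N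
          have k4 : ef a b ((g : ℤ) ^ 2 * t) p s = ef a b t p s := by
            unfold ef
            rw [pts_scale hpp k2]
          by_cases k5 : (p : ℤ) ∣ N * t
          · rw [if_neg (fun h => h.2 (k3.2 k5)), if_neg (fun h => h.2 k5)]
          · rw [if_pos ⟨hpp, fun h => k5 (k3.1 h)⟩, if_pos ⟨hpp, k5⟩, k4]
    · have : p ∉ S := fun h => hpp (hSp p h).1
      rw [if_neg (fun h => hpp h.1), if_neg (fun h => hpp h.1), if_neg this, mul_one]
  · refine mul_ne_zero h1 ?_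
    exact Finset.prod_ne_zero_iff.2 fun p hp => ef_one (hSp p hp).1


/-! ### the curves -/

/-- `y² = x³ + a m² x + b m³` -/
def W (a b m : ℤ) : WeierstrassCurve ℚ :=
  ⟨0, 0, 0, ((a * m ^ 2 : ℤ) : ℚ), ((b * m ^ 3 : ℤ) : ℚ)⟩

theorem W_Δ {a b t : ℤ} (hD : 4 * a ^ 3 + 27 * b ^ 2 ≠ 0) (ht : t ≠ 0) : (W a b t).Δ ≠ 0 := by
  have e : (W a b t).Δ = ((-16 * (4 * a ^ 3 + 27 * b ^ 2) * t ^ 6 : ℤ) : ℚ) := by
    unfold W
    simp only [WeierstrassCurve.Δ, WeierstrassCurve.b₂, WeierstrassCurve.b₄,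
      WeierstrassCurve.b₆, WeierstrassCurve.b₈]
    push_cast
    ring
  rw [e]
  exact_mod_cast mul_ne_zero (mul_ne_zero (by norm_num) hD) (pow_ne_zero 6 ht)

open Pool.Agent.Y700 (VR)
open Pool.Agent.N875.X15 (Fin2)
open Pool.Agent.Z702 (S_TRN)
open Pool.Agent.N855.GF.Tw (tw tw_sqf)
open Pool.Agent.N855.GF.TwL (pair)
open Pool.Agent.Y687 (RankBSD)

theorem vrW (a b g t : ℤ) (hg : g ≠ 0) : VR (W a b (g ^ 2 * t)) (W a b t) (g : ℚ) 0 0 0 := by
  refine ⟨by exact_mod_cast hg, ?_, ?_, ?_, ?_, ?_⟩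
  · show (g : ℚ) * 0 = 0 + 2 * 0
    ring
  · show (g : ℚ) ^ 2 * 0 = 0 - 0 * 0 + 3 * 0 - 0 ^ 2
    ring
  · show (g : ℚ) ^ 3 * 0 = 0 + 0 * 0 + 2 * 0
    ring
  · show (g : ℚ) ^ 4 * ((a * t ^ 2 : ℤ) : ℚ) = ((a * (g ^ 2 * t) ^ 2 : ℤ) : ℚ) - 0 * 0 + 2 * 0 * 0 -
      (0 + 0 * 0) * 0 + 3 * 0 ^ 2 - 2 * 0 * 0
    push_cast
    ring
  · show (g : ℚ) ^ 6 * ((b * t ^ 3 : ℤ) : ℚ) = ((b * (g ^ 2 * t) ^ 3 : ℤ) : ℚ) +
      0 * ((a * (g ^ 2 * t) ^ 2 : ℤ) : ℚ) + 0 ^ 2 * 0 + 0 ^ 3 - 0 * 0 - 0 ^ 2 - 0 * 0 * 0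
    push_cast
    ring

theorem fin2_W {a b g t : ℤ} (hD : 4 * a ^ 3 + 27 * b ^ 2 ≠ 0) (hg : g ≠ 0) (ht : t ≠ 0) :
    Fin2 (W a b (g ^ 2 * t)) ↔ Fin2 (W a b t) := by
  have hT : S_TRN := Pool.Agent.Z932.Z702.t_TRN
  obtain ⟨h1, h2, -⟩ := hT _ _ _ _ _ _ (vrW a b g t hg) (W_Δ hD ht)
  exact and_congr h1 h2

theorem fin2_tw {a b e d : ℤ} (hD : 4 * a ^ 3 + 27 * b ^ 2 ≠ 0) (he : Squarefree e)
    (hd : Squarefree d) : Fin2 (W a b (e * d)) ↔ Fin2 (W a b (tw e d)) := by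
  obtain ⟨g, hg, h1, -⟩ := pair he hd
  rw [h1, fin2_W hD (by exact_mod_cast hg.ne') (tw_sqf he hd).ne_zero]

open Classical in
/-- the `L`-function of the twist of a twist -/
theorem exists_LG {a b N : ℤ} (h2N : 2 ∣ N)
    (hN : ∀ (d : ℤ) (p : ℕ), p.Prime →
      (((p : ℤ) ∣ 2 * (-4 * (a * d ^ 2) ^ 3 - 27 * (b * d ^ 3) ^ 2)) ↔ (p : ℤ) ∣ N * d))
    {e d : ℤ} (he : Squarefree e) (hd : Squarefree d)
    (h : RankBSD (a * tw e d ^ 2) (b * tw e d ^ 3)) :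
    ∃ F : ℂ → ℂ, (Differentiable ℂ F ∧ ∀ s : ℂ, (3 : ℝ) / 2 < s.re →
      HasProd (fun p : ℕ => if p.Prime ∧ ¬ ((p : ℤ) ∣ N * (e * d)) then
        (1 - ((p : ℂ) - (pts a b (e * d) p : ℂ)) * (p : ℂ) ^ (-s) + (p : ℂ) ^ (1 - 2 * s))⁻¹ else 1)
        (F s)) ∧ analyticOrderAt F 1 = 0 ∧ F 1 ≠ 0 := by
  obtain ⟨F, h1, h2, h3, -⟩ := h
  have h5 : F 1 ≠ 0 := ((h1.analyticAt 1).analyticOrderAt_eq_zero).1 h3
  obtain ⟨g, hg, h6, h7⟩ := pair he hd
  obtain ⟨F', k1, k2, k3⟩ := L_scale (a := a) (b := b) (N := N) (t := tw e d) h2N hg h7 h1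
    (fun s hs => by
      have h4 := h2 s hs
      convert h4 using 1
      funext p
      by_cases hp : p.Prime
      · by_cases hb : (p : ℤ) ∣ N * tw e d
        · rw [if_neg (fun h => h.2 hb), if_neg (fun h => h.2 ((hN _ p hp).2 hb))]
        · rw [if_pos ⟨hp, hb⟩, if_pos ⟨hp, fun h => hb ((hN _ p hp).1 h)⟩]
          rfl
      · rw [if_neg (fun h => hp h.1), if_neg (fun h => hp h.1)]) h5
  refine ⟨F', ⟨k1, fun s hs => ?_⟩, ?_, k3⟩
  · rw [h6]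
    exact k2 s hs
  · exact ((k1.analyticAt 1).analyticOrderAt_eq_zero).2 k3

end Pool.Agent.N855.TG
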