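import Pool.Agent.N855.TG.Hg15
import Pool.Agent.N855.TG.LG
import Pool.Agent.N969.Den.Close
import Pool.Agent.N973.P15G.All
import Pool.Agent.N875.D15.Crit

/-!
# Level 15: the twists of a twist with finitely many rational points and `Ш[2] = 0`
-/

set_option autoImplicit false

open scoped Classical

namespace Pool.Agent.N855.TG

open Finset Filter Topology
open Pool.Agent.N919.BS (NN NS NF HG)
open Pool.Agent.N916.GB (eta)
open Pool.Agent.N875.X15 (Fin2)
open Pool.Agent.N809.PQ (Sg15 w15)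
open Pool.Agent.N855.GF.Tw (tw T T_eq tw_sqf split tw_eq)
open Pool.Agent.Y687 (RankBSD)

theorem tw_one {e d : ℤ} (he : Squarefree e) (hd : Squarefree d) (h : tw e d = 1) : d = e := by
  obtain ⟨g, e', d', hg, h1, h2, h3, h4, h5, h6, h7, h8⟩ := split he hd
  rw [tw_eq hg h1 h2 h3] at h
  rcases Int.mul_eq_one_iff_eq_one_or_neg_one.1 h with ⟨k1, k2⟩ | ⟨k1, k2⟩ <;>
    rw [h2, h3, k1, k2]

theorem tw_neg_one {e d : ℤ} (he : Squarefree e) (hd : Squarefree d) (h : tw e d = -1) :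
    d = -e := by
  obtain ⟨g, e', d', hg, h1, h2, h3, h4, h5, h6, h7, h8⟩ := split he hd
  rw [tw_eq hg h1 h2 h3] at h
  rcases Int.mul_eq_neg_one_iff_eq_one_or_neg_one.1 h with ⟨k1, k2⟩ | ⟨k1, k2⟩ <;>
    rw [h2, h3, k1, k2] <;> ring

theorem T_close {e : ℤ} (he : Squarefree e) {P Q : ℤ → Prop}
    (h : ∀ d, Squarefree d → d ≠ 1 → d ≠ -1 → (P d ↔ Q d)) (X : ℕ) :
    T e P X ≤ T e Q X + 2 := by
  unfold Pool.Agent.N855.GF.Tw.T
  have h1 : ((Icc (-(X : ℤ)) X).filter fun d => Squarefree d ∧ P (tw e d)) ⊆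
      ((Icc (-(X : ℤ)) X).filter fun d => Squarefree d ∧ Q (tw e d)) ∪ {e, -e} := by
    intro d hd
    obtain ⟨h2, h3, h4⟩ := mem_filter.1 hd
    rw [mem_union]
    by_cases e1 : tw e d = 1
    · right
      rw [tw_one he h3 e1]
      simp
    by_cases e2 : tw e d = -1
    · right
      rw [tw_neg_one he h3 e2]
      simp
    left
    exact mem_filter.2 ⟨h2, h3, (h _ (tw_sqf he h3) e1 e2).1 h4⟩
  refine (card_le_card h1).trans ((card_union_le _ _).trans ?_)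
  exact Nat.add_le_add_left (card_le_two) _

/-- the criterion of the curve and the criterion of the family of twists -/
theorem T_NS {a b e : ℤ} (hD : 4 * a ^ 3 + 27 * b ^ 2 ≠ 0) (he : Squarefree e) (X : ℕ) :
    T e (fun m => Fin2 (W a b m)) X = NS (fun d => Fin2 (W a b (e * d))) X := by
  unfold Pool.Agent.N855.GF.Tw.T Pool.Agent.N919.BS.NS
  congr 1
  ext d
  rw [mem_filter, mem_filter]
  refine and_congr_right fun _ => and_congr_right fun hd => ?_
  exact (fin2_tw hD he hd).symm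

/-- from the criterion to the curve -/
theorem lim_fin {a b e : ℤ} (hD : 4 * a ^ 3 + 27 * b ^ 2 ≠ 0) (he : Squarefree e) {Q : ℤ → Prop}
    (hQ : ∀ m, Squarefree m → m ≠ 1 → m ≠ -1 → (Fin2 (W a b m) ↔ Q m)) {c : ℝ}
    (h : Tendsto (fun X : ℕ => (T e Q X : ℝ) / (NS (fun _ => True) X : ℝ)) atTop (𝓝 c)) :
    Tendsto (fun X : ℕ => (NS (fun d => Fin2 (W a b (e * d))) X : ℝ) /
      (NS (fun _ => True) X : ℝ)) atTop (𝓝 c) := by
  have h1 := Pool.Agent.N969.Den.lim_close (B := T e (fun m => Fin2 (W a b m))) h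
    (fun X => T_close he (fun d k1 k2 k3 => (hQ d k1 k2 k3).symm) X)
    (fun X => T_close he (fun d k1 k2 k3 => hQ d k1 k2 k3) X)
    Pool.Agent.N969.Den.NS_top
  refine h1.congr fun X => ?_
  rw [T_NS hD he]

/-- **level 15** -/
theorem fin15 {e : ℤ} (he : Squarefree e) :
    Tendsto (fun X : ℕ => (NS (fun d => Fin2 (W (-12987) (-263466) (e * d))) X : ℝ) /
      (NS (fun _ => True) X : ℝ)) atTop (𝓝 (eta / 2)) := by
  refine lim_fin (by norm_num) he (fun m hm h1 h2 => ?_) (lim15 he)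
  have h3 : Fin2 (W (-12987) (-263466) m) ↔ Sg15 m ∨ m = 1 ∨ m = -1 :=
    Pool.Agent.N875.D15.fin2S_iff_sg15 hm
  rw [h3, wt_v15]
  constructor
  · rintro (h | h | h)
    · exact ⟨Pool.Agent.N809.PQ.sg15_parity hm h1 h2 h, h⟩
    · exact absurd h h1
    · exact absurd h h2
  · exact fun h => Or.inl h.2

theorem bsd15 {m : ℤ} (hm : Squarefree m) (h : Fin2 (W (-12987) (-263466) m)) :
    RankBSD (-12987 * m ^ 2) (-263466 * m ^ 3) := Pool.Agent.N973.P15G.F.rank15 hm h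

theorem bad15 (d : ℤ) (p : ℕ) (hp : p.Prime) :
    ((p : ℤ) ∣ 2 * (-4 * (-12987 * d ^ 2) ^ 3 - 27 * (-263466 * d ^ 3) ^ 2)) ↔
      (p : ℤ) ∣ 30 * d := by
  have hpi := Nat.prime_iff_prime_int.1 hp
  have e : (2 : ℤ) * (-4 * (-12987 * d ^ 2) ^ 3 - 27 * (-263466 * d ^ 3) ^ 2) =
      2 ^ 9 * 3 ^ 16 * 5 ^ 4 * d ^ 6 := by
    ring
  rw [e]
  constructor
  · intro h
    rcases hpi.dvd_or_dvd h with h | h
    · rcases hpi.dvd_or_dvd h with h | h
      · rcases hpi.dvd_or_dvd h with h | h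
        · exact Dvd.dvd.mul_right (dvd_trans (hpi.dvd_of_dvd_pow h) (by norm_num)) d
        · exact Dvd.dvd.mul_right (dvd_trans (hpi.dvd_of_dvd_pow h) (by norm_num)) d
      · exact Dvd.dvd.mul_right (dvd_trans (hpi.dvd_of_dvd_pow h) (by norm_num)) d
    · exact Dvd.dvd.mul_left (hpi.dvd_of_dvd_pow h) 30
  · intro h
    refine dvd_trans h ?_
    exact ⟨2 ^ 8 * 3 ^ 15 * 5 ^ 3 * d ^ 5, by ring⟩

end Pool.Agent.N855.TG
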