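import Pool.Agent.N855.TG.Hg21

/-!
# Level 21: the final statements
-/

set_option autoImplicit false

open scoped Classical

namespace Pool.Agent.N855.TG

open Pool.Agent.N875.X15 (Fin2)
open Pool.Agent.Y687 (RankBSD)

theorem bsd21 {m : ℤ} (hm : Squarefree m) (h : Fin2 (W (-5211) (-31050) m)) :
    RankBSD (-5211 * m ^ 2) (-31050 * m ^ 3) := Pool.Agent.N973.P21G.rank21 hm h

theorem bad21 (d : ℤ) (p : ℕ) (hp : p.Prime) :
    ((p : ℤ) ∣ 2 * (-4 * (-5211 * d ^ 2) ^ 3 - 27 * (-31050 * d ^ 3) ^ 2)) ↔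
      (p : ℤ) ∣ 42 * d := by
  have hpi := Nat.prime_iff_prime_int.1 hp
  have e : (2 : ℤ) * (-4 * (-5211 * d ^ 2) ^ 3 - 27 * (-31050 * d ^ 3) ^ 2) =
      2 ^ 9 * 3 ^ 16 * 7 ^ 2 * d ^ 6 := by
    ring
  rw [e]
  constructor
  · intro h
    rcases hpi.dvd_or_dvd h with h | h
    · rcases hpi.dvd_or_dvd h with h | h
      · rcases hpi.dvd_or_dvd h with h | h
        · exact Dvd.dvd.mul_right (dvd_trans (hpi.dvd_of_dvd_pow h) (by norm_num)) d
        · exact Dvd.dvd.mul_right (dvd_trans (hpi.dvd_of_dvd_pow h) (by norm_num)) d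
      · exact Dvd.dvd.mul_right (dvd_trans (hpi.dvd_of_dvd_pow h) (by norm_num)) d
    · exact Dvd.dvd.mul_left (hpi.dvd_of_dvd_pow h) 42
  · intro h
    refine dvd_trans h ?_
    exact ⟨2 ^ 8 * 3 ^ 15 * 7 * d ^ 5, by ring⟩

end Pool.Agent.N855.TG
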