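import Pool.Agent.N916.PQ.Main15
import Pool.Agent.N855.TG.TwG

/-!
# Level 15: the density of the criterion with a prescribed greatest common divisor
-/

set_option autoImplicit false

open scoped Classical

namespace Pool.Agent.N855.TG

open Finset Filter Topology
open Pool.Agent.N919.BS (NN NS NF HG)
open Pool.Agent.N916.AM (LAH)
open Pool.Agent.N916.GB (eta)
open Pool.Agent.N916.PQ
open Pool.Agent.N809.PQ
open Pool.Agent.N855.GF.Tw (tw T)

/-- the final count with a local condition -/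
theorem hg_loc {s' : ℤ} {k c : ℕ} {M : ℕ} (hM : 8 ∣ M) (hM0 : 0 < M) {f : ℤ → Bool}
    {Q : ℤ → Prop} {K : Finset ℕ} (hc : c = 1 ∨ c = 3) {η : ℝ} (h0 : 0 ≤ η) (h1 : η ≤ 1)
    (hK : ∀ n : ℕ, 0 < n → (n % M ∈ K ↔ n % 4 = c ∧ f (s' * (k * n : ℕ)) = true))
    (hL : LAH M K (fun S => Q (s' * (k * ∏ v ∈ S, v : ℕ))) η) {e : ℤ} (he : e ≠ 0)
    (hs : s' = 1 ∨ s' = -1) (r : ℕ) :
    ∀ ε : ℝ, 0 < ε → ∃ Y₀ : ℕ, ∀ Y : ℕ, Y₀ ≤ Y →
      |(NN (fun d => (f d = true ∧ Int.gcd d e = r) ∧ Q d) s' k c Y : ℝ) -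
        η * NN (fun d => f d = true ∧ Int.gcd d e = r) s' k c Y| ≤ ε * Y := by
  have he0 : 0 < e.natAbs := Int.natAbs_pos.2 he
  have hMM : M ∣ M * e.natAbs := Dvd.intro _ rfl
  have hM' : 0 < M * e.natAbs := Nat.mul_pos hM0 he0
  have hg : ∀ n : ℕ, Int.gcd (s' * (k * n : ℕ)) e = Nat.gcd (k * n) e.natAbs := by
    intro n
    unfold Int.gcd
    rw [Int.natAbs_mul, Int.natAbs_natCast]
    rcases hs with rfl | rfl <;> simp
  have hg2 : ∀ n : ℕ, Int.gcd (s' * (k * (n % (M * e.natAbs)) : ℕ)) e =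
      Int.gcd (s' * (k * n : ℕ)) e := by
    intro n
    rw [hg, hg]
    have h2 : n % (M * e.natAbs) ≡ n [MOD e.natAbs] :=
      (Nat.mod_modEq n _).of_dvd (Dvd.intro_left _ rfl)
    exact (h2.mul_left k).gcd_eq
  have h := hg_one (s' := s') (k := k) (c := c) (M := M * e.natAbs)
    (hM.trans hMM) hM' (f := fun d => f d && decide (Int.gcd d e = r)) (Q := Q)
    (K := (range (M * e.natAbs)).filter fun a => a % M ∈ K ∧
      Int.gcd (s' * (k * a : ℕ)) e = r) hc h0 h1 (by
        intro n hn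
        rw [mem_filter, mem_range, Nat.mod_mod_of_dvd _ hMM, hg2, hK n hn, Bool.and_eq_true,
          decide_eq_true_iff]
        constructor
        · rintro ⟨-, ⟨h2, h3⟩, h4⟩
          exact ⟨h2, h3, h4⟩
        · rintro ⟨h2, h3, h4⟩
          exact ⟨Nat.mod_lt _ hM', ⟨h2, h3⟩, h4⟩)
    (lah_lift hMM hM' (fun a ha => (mem_filter.1 ha).2.1) hL)
  intro ε hε
  obtain ⟨Y₀, hY⟩ := h ε hε
  refine ⟨Y₀, fun Y h2 => ?_⟩
  have h3 := hY Y h2
  have e1 : (fun d => (f d = true ∧ Int.gcd d e = r) ∧ Q d) =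
      fun d => (f d && decide (Int.gcd d e = r)) = true ∧ Q d := by
    funext d
    rw [Bool.and_eq_true, decide_eq_true_iff]
  have e2 : (fun d => f d = true ∧ Int.gcd d e = r) =
      fun d => (f d && decide (Int.gcd d e = r)) = true := by
    funext d
    rw [Bool.and_eq_true, decide_eq_true_iff]
  rw [e1, e2]
  exact h3

/-- **level 15 with a prescribed greatest common divisor with `e`** -/
theorem hg15L {e : ℤ} (he : e ≠ 0) (r : ℕ) :
    HG (fun d => f15 d = true ∧ Int.gcd d e = r) Sg15 eta := by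
  intro s' k c hs hk hc
  obtain ⟨t, r', s, H⟩ := pm_all hs hk hc
  rcases hs with h | h
  · refine hg_loc (M := 120) (by norm_num) (by norm_num) hc eta01.1 eta01.2
      (K := KK 120 (fun m => B3 m ∧ ¬ B5 m) s' k c ∪ KK 120 (fun m => ¬ B3 m ∧ B5 m) s' k c) ?_
      (LAH.union (lahB H h) (lahC H h)) he (Or.inl h) r
    intro n hn
    rw [mem_union, m120 (per3.and per5.not), m120 (per3.not.and per5), f15_pos (H.pos hn h)]
    tauto
  · refine hg_loc (M := 120) (by norm_num) (by norm_num) hc eta01.1 eta01.2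
      (K := KK 120 (fun m => ¬ B3 m ∧ ¬ B5 m) s' k c ∪ KK 120 (fun m => B3 m ∧ B5 m) s' k c) ?_
      (LAH.union (lahA H h) (lahD H h)) he (Or.inr h) r
    intro n hn
    rw [mem_union, m120 (per3.not.and per5.not), m120 (per3.and per5), f15_neg (H.neg' hn h)]
    tauto

/-- the finite part of the root number at level 15 -/
def v15 (d : ℤ) : ℤ := (if d % 3 = 2 then -1 else 1) * (if d % 5 = 1 ∨ d % 5 = 4 then 1 else -1)

theorem wt_v15 (d : ℤ) : wt v15 d = w15 d := by
  unfold wt v15 w15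
  ring

theorem rn15 : Rn 3 5 v15 where
  pos₁ := by norm_num
  pos₂ := by norm_num
  val := by
    intro d
    unfold v15
    split_ifs <;> norm_num
  per := by
    intro d d' h
    have h3 : d % 3 = d' % 3 := by
      push_cast at h
      omega
    have h5 : d % 5 = d' % 5 := by
      push_cast at h
      omega
    unfold v15
    rw [h3, h5]
  f₁ := by
    refine ⟨11, by norm_num, by norm_num, fun d hd => ?_⟩
    push_cast at hd ⊢
    refine ⟨by omega, ?_⟩
    unfold v15
    have h5 : 11 * d % 5 = d % 5 := by omega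
    rw [h5]
    rcases (by omega : d % 3 = 1 ∨ d % 3 = 2) with h | h
    · rw [if_pos (show 11 * d % 3 = 2 by omega), if_neg (show ¬ d % 3 = 2 by omega)]
      ring
    · rw [if_neg (show ¬ 11 * d % 3 = 2 by omega), if_pos h]
      ring
  f₂ := by
    refine ⟨7, by norm_num, by norm_num, fun d h3 hd => ?_⟩
    push_cast at h3 hd ⊢
    refine ⟨by omega, ?_⟩
    unfold v15
    rw [if_neg (show ¬ 7 * d % 3 = 2 by omega), if_neg (show ¬ d % 3 = 2 by omega)]
    have h5 : 7 * d % 5 = 2 * (d % 5) % 5 := by omega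
    rcases (by omega : d % 5 = 1 ∨ d % 5 = 2 ∨ d % 5 = 3 ∨ d % 5 = 4) with h | h | h | h <;>
      rw [h5, h] <;> norm_num
  f₃ := by
    intro d h3 h5
    push_cast at h3 h5
    unfold v15
    rw [if_neg (show ¬ -d % 3 = 2 by omega), if_neg (show ¬ d % 3 = 2 by omega),
      if_neg (by omega), if_neg (by omega)]

/-- **level 15: the twists of the twist by `e`** -/
theorem lim15 {e : ℤ} (he : Squarefree e) :
    Tendsto (fun X : ℕ => (T e (fun d => wt v15 d = 1 ∧ Sg15 d) X : ℝ) /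
      (NS (fun _ => True) X : ℝ)) atTop (𝓝 (eta / 2)) := by
  refine lim_TG he rn15 eta01.1 eta01.2 fun r => ?_
  have h := hg15L he.ne_zero r
  have e1 : (fun d => f15 d = true ∧ Int.gcd d e = r) =
      fun d => wt v15 d = 1 ∧ Int.gcd d e = r := by
    funext d
    rw [f15_w15, wt_v15]
  rwa [e1] at h

end Pool.Agent.N855.TG
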