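import Pool.Agent.N855.TG.Cls21
import Pool.Agent.N855.TG.Fin15
import Pool.Agent.N916.PQ.Loc21
import Pool.Agent.N809.D21.Main
import Pool.Agent.N973.P21G.All

/-!
# Level 21: the twists of a twist with finitely many rational points and `Ш[2] = 0`
-/

set_option autoImplicit false

open scoped Classical

namespace Pool.Agent.N855.TG

open Finset Filter Topology
open Pool.Agent.N919.BS (NN NS NF HG low1 NS_eq)
open Pool.Agent.N916.GB (eta)
open Pool.Agent.N875.X15 (Fin2)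
open Pool.Agent.N855.GF (dl)
open Pool.Agent.N855.GF.Lc17 (Lc)
open Pool.Agent.N855.GF.Tw (tw T T_eq tw_sqf split tw_eq)
open Pool.Agent.N809.Red21 (fD f21 fD_iff f21_iff)
open Pool.Agent.N809.PQ (C3 C7 w21 Sg21)
open Pool.Agent.N916.PQ.L21 (fO fO_iff WF NN_lim lim_NS quo limT dl84 f21_of_sg)
open Pool.Agent.Y687 (RankBSD)

theorem lc_gcd21 (e : ℤ) (r : ℕ) : Lc (168 * e.natAbs) (fun f => Int.gcd f e = r) := by
  intro s k M N hs hk hM hN _ _ h
  have key : ∀ M : ℕ, Int.gcd (s * ((k * M : ℕ) : ℤ)) e = Nat.gcd (k * M) e.natAbs := by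
    intro M
    unfold Int.gcd
    rw [Int.natAbs_mul, Int.natAbs_natCast]
    rcases hs with rfl | rfl <;> simp
  have h1 : M ≡ N [MOD e.natAbs] := Nat.ModEq.of_mul_left 168 h
  show Int.gcd (s * ((k * M : ℕ) : ℤ)) e = r ↔ Int.gcd (s * ((k * N : ℕ) : ℤ)) e = r
  rw [key, key, (h1.mul_left k).gcd_eq]

theorem hgO21 {e : ℤ} (he : e ≠ 0) (r : ℕ) :
    HG (fun d => fO d = true ∧ Int.gcd d e = r) Sg21 eta :=
  Pool.Agent.N916.PQ.L21.Loc.hgO_loc (Dvd.intro _ rfl)
    (Nat.mul_pos (by norm_num) (Int.natAbs_pos.2 he)) (lc_gcd21 e r)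

theorem hgD21 {e : ℤ} (he : e ≠ 0) (r : ℕ) :
    HG (fun d => fD d = true ∧ Int.gcd d e = r) Sg21 (4 / 3 * eta) :=
  Pool.Agent.N916.PQ.L21.Loc.hgD_loc (Dvd.intro _ rfl)
    (Nat.mul_pos (by norm_num) (Int.natAbs_pos.2 he)) (lc_gcd21 e r)

/-- the finite part of the root number at level 21 -/
def v21 (d : ℤ) : ℤ := (if d % 3 = 1 then 1 else -1) *
  (if d % 7 = 3 ∨ d % 7 = 5 ∨ d % 7 = 6 then -1 else 1)

theorem wt_v21 (d : ℤ) : wt v21 d = w21 d := by
  unfold wt v21 w21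
  ring

theorem rn21 : Rn 3 7 v21 where
  pos₁ := by norm_num
  pos₂ := by norm_num
  val := by
    intro d
    unfold v21
    split_ifs <;> norm_num
  per := by
    intro d d' h
    have h3 : d % 3 = d' % 3 := by
      push_cast at h
      omega
    have h7 : d % 7 = d' % 7 := by
      push_cast at h
      omega
    unfold v21
    rw [h3, h7]
  f₁ := by
    refine ⟨8, by norm_num, by norm_num, fun d hd => ?_⟩
    push_cast at hd ⊢
    refine ⟨by omega, ?_⟩
    unfold v21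
    have h7 : 8 * d % 7 = d % 7 := by omega
    rw [h7]
    rcases (by omega : d % 3 = 1 ∨ d % 3 = 2) with h | h
    · rw [if_neg (show ¬ 8 * d % 3 = 1 by omega), if_pos h]
      ring
    · rw [if_pos (show 8 * d % 3 = 1 by omega), if_neg (show ¬ d % 3 = 1 by omega)]
      ring
  f₂ := by
    refine ⟨10, by norm_num, by norm_num, fun d h3 hd => ?_⟩
    push_cast at h3 hd ⊢
    refine ⟨by omega, ?_⟩
    unfold v21
    rw [if_neg (show ¬ 10 * d % 3 = 1 by omega), if_neg (show ¬ d % 3 = 1 by omega)]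
    have h7 : 10 * d % 7 = 3 * (d % 7) % 7 := by omega
    rcases (by omega : d % 7 = 1 ∨ d % 7 = 2 ∨ d % 7 = 3 ∨ d % 7 = 4 ∨ d % 7 = 5 ∨ d % 7 = 6) with
      h | h | h | h | h | h <;> rw [h7, h] <;> norm_num
  f₃ := by
    intro d h3 h7
    push_cast at h3 h7
    unfold v21
    rw [if_neg (show ¬ -d % 3 = 1 by omega), if_neg (show ¬ d % 3 = 1 by omega),
      if_neg (by omega), if_neg (by omega)]

/-! ### the densities of the divisibility conditions -/

/-- the divisibility by `3` is `b₃` and the divisibility by `7` is `b₇` -/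
def dn (b₃ b₇ : Bool) (m : ℤ) : Bool := (decide (m % 3 = 0) == b₃) && (decide (m % 7 = 0) == b₇)

/-- `384` times the proportion -/
def w4 (b₃ b₇ : Bool) : ℤ :=
  if b₃ then (if b₇ then 12 else 84) else (if b₇ then 36 else 252)

theorem WF_dn : ∀ b₃ b₇ : Bool, ∀ k c, (k = 1 ∨ k = 2) → (c = 1 ∨ c = 3) →
    WF (dn b₃ b₇) 1 k c = w4 b₃ b₇ := by
  rintro (_ | _) (_ | _) k c (rfl | rfl) (rfl | rfl) <;> decide +kernel

theorem WF_dn' : ∀ b₃ b₇ : Bool, ∀ k c, (k = 1 ∨ k = 2) → (c = 1 ∨ c = 3) →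
    WF (dn b₃ b₇) (-1) k c = w4 b₃ b₇ := by
  rintro (_ | _) (_ | _) k c (rfl | rfl) (rfl | rfl) <;> decide +kernel

theorem per_dn (b₃ b₇ : Bool) (s : ℤ) (k n : ℕ) (hs : s = 1 ∨ s = -1) (hk : k = 1 ∨ k = 2) :
    dn b₃ b₇ (s * (k * n : ℕ)) = dn b₃ b₇ (s * (k * (n % 84) : ℕ)) := by
  unfold dn
  have e3 : (s * (k * n : ℕ)) % 3 = (s * (k * (n % 84) : ℕ)) % 3 := by
    rcases hs with rfl | rfl <;> rcases hk with rfl | rfl <;> push_cast <;> omega
  have e7 : (s * (k * n : ℕ)) % 7 = (s * (k * (n % 84) : ℕ)) % 7 := by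
    rcases hs with rfl | rfl <;> rcases hk with rfl | rfl <;> push_cast <;> omega
  rw [e3, e7]

theorem dens (b₃ b₇ : Bool) : Tendsto (fun X : ℕ => (NS (fun d => dn b₃ b₇ d = true) X : ℝ) /
    (NS (fun _ => True) X : ℝ)) atTop (𝓝 ((w4 b₃ b₇ : ℝ) / 384)) := by
  have hd := dl84
  have h1 : ∀ k c, (k = 1 ∨ k = 2) → (c = 1 ∨ c = 3) →
      Tendsto (fun Y : ℕ => (NN (fun d => dn b₃ b₇ d = true) 1 k c Y : ℝ) / Y) atTop
        (𝓝 ((w4 b₃ b₇ : ℝ) / 21 * dl 84)) := by
    intro k c hk hc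
    have h := NN_lim (dn b₃ b₇) 1 k c hc fun n _ => per_dn b₃ b₇ 1 k n (Or.inl rfl) hk
    rwa [WF_dn b₃ b₇ k c hk hc] at h
  have h2 : ∀ k c, (k = 1 ∨ k = 2) → (c = 1 ∨ c = 3) →
      Tendsto (fun Y : ℕ => (NN (fun d => dn b₃ b₇ d = true) (-1) k c Y : ℝ) / Y) atTop
        (𝓝 ((w4 b₃ b₇ : ℝ) / 21 * dl 84)) := by
    intro k c hk hc
    have h := NN_lim (dn b₃ b₇) (-1) k c hc fun n _ => per_dn b₃ b₇ (-1) k n (Or.inr rfl) hk
    rwa [WF_dn' b₃ b₇ k c hk hc] at h
  refine quo (lim_NS h1 h2) (lim_NS (fun k c => limT 1 k c (Or.inl rfl))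
    fun k c => limT (-1) k c (Or.inr rfl)) ?_ ?_
  · positivity
  · field_simp
    ring

section

variable {e : ℤ} (he : Squarefree e)

include he

omit he in
theorem T_dn {P Q : ℤ → Prop} (h : ∀ d, Squarefree d → (P (tw e d) ↔ Q d)) (X : ℕ) :
    T e P X = NS Q X := by
  unfold Pool.Agent.N855.GF.Tw.T Pool.Agent.N919.BS.NS
  congr 1
  ext d
  rw [mem_filter, mem_filter]
  exact and_congr_right fun _ => and_congr_right fun hd => h d hd

theorem T_add {A B C : ℤ → Prop} (h : ∀ d, Squarefree d → (A d ↔ B d ∨ C d))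
    (hdis : ∀ d, B d → ¬ C d) (X : ℕ) : T e A X = T e B X + T e C X := by
  unfold Pool.Agent.N855.GF.Tw.T
  rw [← card_union_of_disjoint]
  · congr 1
    ext d
    rw [mem_union, mem_filter, mem_filter, mem_filter]
    constructor
    · rintro ⟨h1, h2, h3⟩
      rcases (h _ (tw_sqf he h2)).1 h3 with h4 | h4
      · exact Or.inl ⟨h1, h2, h4⟩
      · exact Or.inr ⟨h1, h2, h4⟩
    · rintro (⟨h1, h2, h3⟩ | ⟨h1, h2, h3⟩)
      · exact ⟨h1, h2, (h _ (tw_sqf he h2)).2 (Or.inl h3)⟩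
      · exact ⟨h1, h2, (h _ (tw_sqf he h2)).2 (Or.inr h3)⟩
  · rw [Finset.disjoint_left]
    intro d h1 h2
    rw [mem_filter] at h1 h2
    exact hdis _ h1.2.2 h2.2.2

theorem T_P1 (X : ℕ) : T e P1 X =
    NS (fun d => dn (decide (e % 3 = 0)) (decide (e % 7 = 0)) d = true) X := by
  refine T_dn (fun d hd => ?_) X
  unfold P1 dn
  have h3 := dvd_tw he hd Nat.prime_three
  have h7 := dvd_tw he hd (p := 7) (by norm_num)
  push_cast at h3 h7
  rw [h3, h7, not_not, not_not, Bool.and_eq_true, beq_iff_eq, beq_iff_eq, decide_eq_decide,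
    decide_eq_decide]
  exact and_congr (by omega) (by omega)

theorem T_P2 (X : ℕ) : T e P2 X =
    NS (fun d => dn (decide (e % 3 = 0)) (!decide (e % 7 = 0)) d = true) X := by
  refine T_dn (fun d hd => ?_) X
  unfold P2 dn
  have h3 := dvd_tw he hd Nat.prime_three
  have h7 := dvd_tw he hd (p := 7) (by norm_num)
  push_cast at h3 h7
  rw [h3, h7, not_not, Bool.and_eq_true, beq_iff_eq, beq_iff_eq, decide_eq_decide,
    ← decide_not, decide_eq_decide]
  exact and_congr (by omega) (by omega)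

/-- the constant of the twist class -/
def kap (e : ℤ) : ℝ := if e % 3 = 0 then (if e % 7 = 0 then 133 else 131) else
  (if e % 7 = 0 then 143 else 137)

omit he in
theorem to_NS {F : ℕ → ℝ} (h : ∀ ε : ℝ, 0 < ε → ∃ X₀ : ℕ, ∀ X : ℕ, X₀ ≤ X → |F X| ≤ ε * X) :
    Tendsto (fun X : ℕ => F X / (NS (fun _ => True) X : ℝ)) atTop (𝓝 0) := by
  obtain ⟨c, X₁, hc, hlow⟩ := low1
  rw [Metric.tendsto_atTop]
  intro ε hε
  obtain ⟨X₀, h0⟩ := h (ε / 2 * c) (by positivity)
  refine ⟨X₀ + X₁ + 1, fun X hX => ?_⟩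
  have h1 := h0 X (by omega)
  have h2 : c * X ≤ (NS (fun _ => True) X : ℝ) := (hlow X (by omega)).trans (by
    rw [NS_eq]
    exact_mod_cast (by omega))
  have hX0 : (0 : ℝ) < X := by
    have : 0 < X := by omega
    exact_mod_cast this
  have h3 : 0 < (NS (fun _ => True) X : ℝ) := lt_of_lt_of_le (by positivity) h2
  rw [Real.dist_eq, sub_zero, abs_div, abs_of_pos h3, div_lt_iff₀ h3]
  have h4 : ε / 2 * (c * X) ≤ ε / 2 * (NS (fun _ => True) X : ℝ) :=
    mul_le_mul_of_nonneg_left h2 (by positivity)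
  have h5 : 0 < ε / 2 * (NS (fun _ => True) X : ℝ) := by positivity
  calc |F X| ≤ ε / 2 * c * X := h1
    _ = ε / 2 * (c * X) := by ring
    _ ≤ ε / 2 * (NS (fun _ => True) X : ℝ) := h4
    _ < ε / 2 * (NS (fun _ => True) X : ℝ) + ε / 2 * (NS (fun _ => True) X : ℝ) := by linarith
    _ = ε * (NS (fun _ => True) X : ℝ) := by ring

/-- the criterion is the disjoint union of its two parts -/
theorem T_parts (X : ℕ) : T e Sg21 X = T e (fun d => fO d = true ∧ Sg21 d) X +
    T e (fun d => fD d = true ∧ Sg21 d) X := by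
  refine T_add he (fun d hd => ?_) (fun d h1 h2 => ?_) X
  · constructor
    · intro h3
      have h5 := f21_of_sg hd h3
      by_cases hD : fD d = true
      · exact Or.inr ⟨hD, h3⟩
      · exact Or.inl ⟨(fO_iff _).2 ⟨h5, Bool.eq_false_iff.2 hD⟩, h3⟩
    · rintro (h | h)
      · exact h.2
      · exact h.2
  · have h3 := ((fO_iff _).1 h1.1).2
    rw [h2.1] at h3
    exact absurd h3 (by decide)

/-- the root number `+1` is the disjoint union of the two parts -/
theorem T_parts' (X : ℕ) : T e (fun d => wt v21 d = 1) X = T e (fun d => fO d = true) X +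
    T e (fun d => fD d = true) X := by
  refine T_add he (fun d hd => ?_) (fun d h1 h2 => ?_) X
  · rw [wt_v21, ← f21_iff]
    constructor
    · intro h3
      by_cases hD : fD d = true
      · exact Or.inr hD
      · exact Or.inl ((fO_iff _).2 ⟨h3, Bool.eq_false_iff.2 hD⟩)
    · rintro (h | h)
      · exact ((fO_iff _).1 h).1
      · exact Pool.Agent.N809.Red21.fD_f21 h
  · have h3 := ((fO_iff _).1 h1).2
    rw [h2] at h3
    exact absurd h3 (by decide)

/-- **level 21: the twists of the twist by `e`** -/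
theorem lim21 : Tendsto (fun X : ℕ => (T e Sg21 X : ℝ) / (NS (fun _ => True) X : ℝ)) atTop
    (𝓝 (kap e / 256 * eta)) := by
  have hO := to_NS (close_TG he (P := fun d => fO d = true) (fun r => hgO21 he.ne_zero r))
  have hD := to_NS (close_TG he (P := fun d => fD d = true) (fun r => hgD21 he.ne_zero r))
  have hH := to_NS (half_TG he rn21)
  have hE := to_NS (exc_T he)
  have d1 := dens (decide (e % 3 = 0)) (decide (e % 7 = 0))
  have d2 := dens (decide (e % 3 = 0)) (!decide (e % 7 = 0))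
  set w1 : ℝ := (w4 (decide (e % 3 = 0)) (decide (e % 7 = 0)) : ℝ) with hw1
  set w2 : ℝ := (w4 (decide (e % 3 = 0)) (!decide (e % 7 = 0)) : ℝ) with hw2
  have hk : kap e / 256 * eta = 0 + 0 + eta / 2 * (0 + 1) +
      eta / 24 * (0 + w1 / 384 + 2 * (w2 / 384)) := by
    rw [hw1, hw2]
    unfold kap w4
    by_cases h3 : e % 3 = 0 <;> by_cases h7 : e % 7 = 0 <;> simp [h3, h7] <;> ring
  rw [hk]
  have hN : ∀ᶠ X : ℕ in atTop, (NS (fun _ => True) X : ℝ) ≠ 0 := Pool.Agent.N916.PQ.NS_ne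
  have h1 : Tendsto (fun X : ℕ => (NS (fun _ => True) X : ℝ) / (NS (fun _ => True) X : ℝ)) atTop
      (𝓝 1) := by
    refine tendsto_const_nhds.congr' ?_
    filter_upwards [hN] with X hX
    exact (div_self hX).symm
  have h := ((hO.add hD).add ((hH.add h1).const_mul (eta / 2))).add
    (((hE.add d1).add (d2.const_mul 2)).const_mul (eta / 24))
  refine h.congr fun X => ?_
  rw [T_parts he, T_parts' he, T_P1 he, T_P2 he]
  push_cast
  ring

/-- **level 21** -/
theorem fin21 :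
    Tendsto (fun X : ℕ => (NS (fun d => Fin2 (W (-5211) (-31050) (e * d))) X : ℝ) /
      (NS (fun _ => True) X : ℝ)) atTop (𝓝 (kap e / 256 * eta)) := by
  refine lim_fin (by norm_num) he (fun m hm h1 h2 => ?_) (lim21 he)
  exact Pool.Agent.N809.D21.fin2_iff hm h1

end

end Pool.Agent.N855.TG
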